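import Pool.Agent.H239R2.Flat.Defs

set_option autoImplicit false

/-!
`CHV`: Fourier transform of the product kernel in the coordinates of a basis.
-/

namespace Pool.Agent.H239R2.Flat

open Finset MeasureTheory Matrix

theorem CHV_cov {n : ℕ} (B : Matrix (Fin n) (Fin n) ℝ) (hB : B.det ≠ 0) (G : (Fin n → ℝ) → ℂ) :
    ∫ x, G x = (|B.det| : ℝ) * ∫ l, G (l ᵥ* B) := by
  have hBt : (Bᵀ).det ≠ 0 := by rwa [Matrix.det_transpose]
  have hmap := Real.map_matrix_volume_pi_eq_smul_volume_pi hBt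
  rw [Matrix.det_transpose] at hmap
  have hu : IsUnit (Bᵀ).det := isUnit_iff_ne_zero.2 hBt
  let e : (Fin n → ℝ) ≃ₗ[ℝ] (Fin n → ℝ) :=
    LinearEquiv.ofIsUnitDet (f := Matrix.toLin' Bᵀ) (v := Pi.basisFun ℝ (Fin n))
      (v' := Pi.basisFun ℝ (Fin n)) (by
        rw [← Matrix.toLin_eq_toLin', LinearMap.toMatrix_toLin]
        exact hu)
  have he : ∀ l, e l = l ᵥ* B := by
    intro l
    have : e l = Matrix.toLin' Bᵀ l := rfl
    rw [this, Matrix.toLin'_apply, Matrix.mulVec_transpose]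
  have hme : MeasurableEmbedding (Matrix.toLin' Bᵀ : (Fin n → ℝ) → (Fin n → ℝ)) := by
    have := e.toContinuousLinearEquiv.toHomeomorph.measurableEmbedding
    exact this
  have h1 := hme.integral_map (μ := volume) G
  rw [hmap, integral_smul_measure] at h1
  have h2 : ∀ l, (Matrix.toLin' Bᵀ : (Fin n → ℝ) → (Fin n → ℝ)) l = l ᵥ* B := by
    intro l
    rw [Matrix.toLin'_apply, Matrix.mulVec_transpose]
  simp only [h2] at h1
  rw [← h1, ENNReal.toReal_ofReal (abs_nonneg _), abs_inv]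
  have hpos : 0 < |B.det| := abs_pos.2 hB
  rw [Complex.real_smul, ← mul_assoc, ← Complex.ofReal_mul, mul_inv_cancel₀ hpos.ne',
    Complex.ofReal_one, one_mul]

theorem CHV_prod {n : ℕ} (B : Matrix (Fin n) (Fin n) ℝ) (hB : B.det ≠ 0) (y : Fin n → ℝ)
    (k : ℝ → ℝ) (c : ℝ → ℂ) (hc0 : c 0 = 1) (hc : ∀ s t, c (s + t) = c s * c t) (K : ℝ → ℝ)
    (hK : ∀ t : ℝ, ∫ s : ℝ, (k s : ℂ) * c (-(t * s)) = (K t : ℂ)) :
    ∫ x : Fin n → ℝ, ((∏ j, k ((x ᵥ* B⁻¹) j) : ℝ) : ℂ) * c (-(∑ i, y i * x i))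
      = ((|B.det| * ∏ j, K ((B *ᵥ y) j) : ℝ) : ℂ) := by
  rw [CHV_cov B hB]
  have hu : IsUnit B.det := isUnit_iff_ne_zero.2 hB
  have hsum : ∀ (f : Fin n → ℝ) (s : Finset (Fin n)), c (∑ j ∈ s, f j) = ∏ j ∈ s, c (f j) := by
    intro f s
    classical
    induction s using Finset.induction_on with
    | empty => simpa using hc0
    | insert a s ha ih => rw [Finset.sum_insert ha, Finset.prod_insert ha, hc, ih]
  have h1 : ∀ l : Fin n → ℝ,
      ((∏ j, k (((l ᵥ* B) ᵥ* B⁻¹) j) : ℝ) : ℂ) * c (-(∑ i, y i * (l ᵥ* B) i))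
        = ∏ j, ((k (l j) : ℂ) * c (-((B *ᵥ y) j * l j))) := by
    intro l
    rw [Matrix.vecMul_vecMul, Matrix.mul_nonsing_inv _ hu, Matrix.vecMul_one]
    have h2 : -(∑ i, y i * (l ᵥ* B) i) = ∑ j, -((B *ᵥ y) j * l j) := by
      rw [Finset.sum_neg_distrib]
      congr 1
      have h3 : ∑ i, y i * (l ᵥ* B) i = (l ᵥ* B) ⬝ᵥ y := by
        simp only [dotProduct]
        exact Finset.sum_congr rfl fun i _ => mul_comm _ _
      have h4 : ∑ j, (B *ᵥ y) j * l j = l ⬝ᵥ (B *ᵥ y) := by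
        simp only [dotProduct]
        exact Finset.sum_congr rfl fun i _ => mul_comm _ _
      rw [h3, h4, Matrix.dotProduct_mulVec]
    rw [h2, hsum, Finset.prod_mul_distrib]
    push_cast
    rfl
  simp_rw [h1]
  rw [integral_fintype_prod_volume_eq_prod (fun j (s : ℝ) => (k s : ℂ) * c (-((B *ᵥ y) j * s)))]
  simp_rw [hK]
  push_cast
  rfl

/-- `CHV` from `FT2`. -/
theorem CHV_of (h : FT2) : CHV := by
  intro n B hB y
  refine CHV_prod B hB y ker ch ?_ ?_ kh h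
  · simp [ch]
  · intro s t
    unfold ch
    rw [← Complex.exp_add]
    congr 1
    push_cast
    ring

end Pool.Agent.H239R2.Flat
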