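import Pool.Agent.H239R2.Flat.Defs

set_option autoImplicit false

/-! COEF: Fourier coefficients of the periodization (helper20). -/

namespace Pool.Agent.H239R2.Flat

open Finset MeasureTheory Matrix

theorem COEF_ch_add (a b : ℝ) : ch (a + b) = ch a * ch b := by
  unfold ch
  rw [← Complex.exp_add]
  congr 1
  push_cast
  ring

theorem COEF_ch_int (m : ℤ) : ch (m : ℝ) = 1 := by
  unfold ch
  rw [← Complex.exp_int_mul_two_pi_mul_I m]
  congr 1
  push_cast
  ring

theorem COEF_ch_sum {ι : Type} (s : Finset ι) (a : ι → ℝ) :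
    ch (∑ i ∈ s, a i) = ∏ i ∈ s, ch (a i) := by
  classical
  induction s using Finset.induction_on with
  | empty => simp [ch]
  | insert i s hi ih => rw [sum_insert hi, prod_insert hi, COEF_ch_add, ih]

theorem COEF_ch_continuous : Continuous ch := by
  unfold ch
  fun_prop

theorem COEF_mFourier {n : ℕ} (y : Fin n → ℤ) (x : Fin n → ℝ) :
    UnitAddTorus.mFourier (-y) (fun i => (x i : UnitAddCircle)) =
      ch (-(∑ i, (y i : ℝ) * x i)) := by
  rw [← Finset.sum_neg_distrib, COEF_ch_sum]
  show ∏ i, fourier ((-y) i) (x i : UnitAddCircle) = _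
  apply Finset.prod_congr rfl
  intro i _
  rw [fourier_coe_apply]
  unfold ch
  congr 1
  simp only [Pi.neg_apply]
  push_cast
  ring

/-- the unit cube -/
def COEF_cube (n : ℕ) : Set (Fin n → ℝ) := {x | ∀ i, x i ∈ Set.Ioc (0 : ℝ) (0 + 1)}

theorem COEF_cube_meas (n : ℕ) : MeasurableSet (COEF_cube n) := by
  have : COEF_cube n = Set.univ.pi fun _ => Set.Ioc (0 : ℝ) (0 + 1) := by
    ext x
    simp [COEF_cube]
  rw [this]
  exact MeasurableSet.univ_pi fun _ => measurableSet_Ioc

/-- unfolding: the integral over the space is the sum of the integrals over the cube -/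
theorem COEF_unfold (n : ℕ) (G : (Fin n → ℝ) → ℂ) (hG : Integrable G) :
    HasSum (fun z : Fin n → ℤ => ∫ x in COEF_cube n, G (fun i => x i - z i)) (∫ x, G x) := by
  let s : (Fin n → ℤ) → Set (Fin n → ℝ) := fun z =>
    (fun x : Fin n → ℝ => x + fun i => (z i : ℝ)) ⁻¹' COEF_cube n
  have hsm : ∀ z, MeasurableSet (s z) := fun z =>
    (measurable_add_const _) (COEF_cube_meas n)
  have hmem : ∀ z x, x ∈ s z ↔ ∀ i, x i + z i ∈ Set.Ioc (0 : ℝ) (0 + 1) := fun z x => Iff.rfl
  have hd : Pairwise (Function.onFun Disjoint s) := by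
    intro z z' hne
    show Disjoint (s z) (s z')
    rw [Set.disjoint_left]
    intro x hx hx'
    apply hne
    funext i
    have h1 := (hmem z x).1 hx i
    have h2 := (hmem z' x).1 hx' i
    rw [Set.mem_Ioc] at h1 h2
    have h3 : (z i : ℝ) - z' i < 1 := by linarith [h1.2, h2.1]
    have h4 : (z' i : ℝ) - z i < 1 := by linarith [h1.1, h2.2]
    have h5 : z i - z' i < 1 := by exact_mod_cast h3
    have h6 : z' i - z i < 1 := by exact_mod_cast h4
    omega
  have hU : (⋃ z, s z) = Set.univ := by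
    rw [Set.eq_univ_iff_forall]
    intro x
    rw [Set.mem_iUnion]
    refine ⟨fun i => 1 - ⌈x i⌉, (hmem _ _).2 fun i => ?_⟩
    rw [Set.mem_Ioc]
    push_cast
    have h1 := Int.le_ceil (x i)
    have h2 := Int.ceil_lt_add_one (x i)
    constructor <;> linarith
  have h1 := hasSum_integral_iUnion (f := G) (μ := volume) hsm hd (by
    rw [hU]; exact hG.integrableOn)
  rw [hU, setIntegral_univ] at h1
  have h2 : ∀ z : Fin n → ℤ, ∫ x in s z, G x = ∫ x in COEF_cube n, G (fun i => x i - z i) := by
    intro z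
    have h3 := (measurePreserving_add_right (volume : Measure (Fin n → ℝ))
      (fun i => (z i : ℝ))).setIntegral_preimage_emb
      (measurableEmbedding_addRight _) (fun x => G (fun i => x i - z i)) (COEF_cube n)
    rw [← h3]
    apply setIntegral_congr_fun (hsm z)
    intro x _
    show G x = G (fun i => (x + fun i => (z i : ℝ)) i - z i)
    congr 1
    funext i
    simp
  simp only [h2] at h1
  exact h1

theorem COEF_holds : COEF := by
  intro n F hF hFs Φ hΦ y
  -- the box containing the support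
  obtain ⟨N, hN⟩ : ∃ N : ℕ, ∀ x, F x ≠ 0 → ∀ i, |x i| ≤ N := by
    obtain ⟨R, hR⟩ := (Metric.isBounded_iff_subset_closedBall (0 : Fin n → ℝ)).1
      hFs.isCompact.isBounded
    obtain ⟨N, hN⟩ := exists_nat_ge R
    refine ⟨N, fun x hx i => ?_⟩
    have h1 := hR (subset_tsupport F hx)
    rw [mem_closedBall_zero_iff] at h1
    exact ((norm_le_pi_norm x i).trans h1).trans hN
  set Z : Finset (Fin n → ℤ) := Fintype.piFinset fun _ => Finset.Icc (-((N : ℤ) + 1)) (N + 1)
    with hZ
  have hzero : ∀ z ∉ Z, ∀ x ∈ COEF_cube n, F (fun i => x i - z i) = 0 := by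
    intro z hz x hx
    by_contra hne
    apply hz
    rw [hZ, Fintype.mem_piFinset]
    intro i
    have h1 := hN _ hne i
    have h2 := hx i
    rw [Set.mem_Ioc] at h2
    rw [abs_le] at h1
    rw [Finset.mem_Icc]
    have h3 : -((N : ℝ) + 1) ≤ z i := by linarith [h1.2, h2.1]
    have h4 : (z i : ℝ) ≤ N + 1 := by linarith [h1.1, h2.2]
    constructor
    · exact_mod_cast h3
    · exact_mod_cast h4
  set G : (Fin n → ℝ) → ℂ := fun x => F x * ch (-(∑ i, (y i : ℝ) * x i)) with hG
  have hGc : Continuous G := by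
    rw [hG]
    exact hF.mul (COEF_ch_continuous.comp (by fun_prop))
  have hGs : HasCompactSupport G := hFs.mul_right
  have hGi : Integrable G := hGc.integrable_of_hasCompactSupport hGs
  have hsum := COEF_unfold n G hGi
  have h1 : ∫ x, G x = ∑ z ∈ Z, ∫ x in COEF_cube n, G (fun i => x i - z i) := by
    rw [← hsum.tsum_eq]
    apply tsum_eq_sum
    intro z hz
    apply setIntegral_eq_zero_of_forall_eq_zero
    intro x hx
    rw [hG]
    show F (fun i => x i - z i) * _ = 0
    rw [hzero z hz x hx, zero_mul]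
  rw [h1, ← integral_finset_sum Z (fun z _ => by
    apply Integrable.integrableOn
    exact hGi.comp_sub_right (fun i => (z i : ℝ)))]
  rw [UnitAddTorus.mFourierCoeff_eq_integral _ _ (fun _ => 0)]
  apply setIntegral_congr_fun (COEF_cube_meas n)
  intro x hx
  show UnitAddTorus.mFourier (-y) (fun i => (x i : UnitAddCircle)) •
    Φ (fun i => (x i : UnitAddCircle)) = ∑ z ∈ Z, G (fun i => x i - z i)
  rw [COEF_mFourier, hΦ, smul_eq_mul, tsum_eq_sum (fun z hz => hzero z hz x hx), Finset.mul_sum]
  apply Finset.sum_congr rfl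
  intro z _
  rw [hG]
  show _ = F (fun i => x i - z i) * ch (-(∑ i, (y i : ℝ) * (x i - z i)))
  have h2 : -(∑ i, (y i : ℝ) * (x i - z i)) = -(∑ i, (y i : ℝ) * x i) +
      ((∑ i, y i * z i : ℤ) : ℝ) := by
    push_cast
    rw [← Finset.sum_neg_distrib, ← Finset.sum_neg_distrib, ← Finset.sum_add_distrib]
    apply Finset.sum_congr rfl
    intro i _
    ring
  rw [h2, COEF_ch_add, COEF_ch_int, mul_one, mul_comm]

end Pool.Agent.H239R2.Flat
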