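import Mathlib

set_option autoImplicit false

/-!
Linear flatness for parallelotopes: definitions and the statements of the steps.
-/

namespace Pool.Agent.H239R2.Flat

open Finset MeasureTheory Matrix

/-- triangle function -/
noncomputable def tri (s : ℝ) : ℝ := max 0 (1 - |s|)

/-- cubic B-spline `tri * tri`, supported in `[-2, 2]` -/
noncomputable def spl (s : ℝ) : ℝ := ∫ u : ℝ, tri (s - u) * tri u

/-- the kernel, supported in `[-1, 1]` -/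
noncomputable def ker (s : ℝ) : ℝ := spl (2 * s)

/-- its Fourier transform -/
noncomputable def kh (t : ℝ) : ℝ := (1 / 2) * Real.sinc (Real.pi * t / 2) ^ 4

/-- the character `x ↦ exp (2 π i x)` -/
noncomputable def ch (x : ℝ) : ℂ := Complex.exp (2 * Real.pi * Complex.I * (x : ℂ))

/-- `KC`: the kernel is continuous, nonnegative and vanishes outside `(-1, 1)`. -/
def KC : Prop := Continuous ker ∧ (∀ s, 0 ≤ ker s) ∧ ∀ s, 1 ≤ |s| → ker s = 0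

/-- `FT1`: Fourier transform of the triangle function. -/
def FT1 : Prop := ∀ t : ℝ, ∫ s : ℝ, (tri s : ℂ) * ch (-(t * s)) = ((Real.sinc (Real.pi * t) ^ 2 : ℝ) : ℂ)

/-- `FT2`: Fourier transform of the kernel. -/
def FT2 : Prop := ∀ t : ℝ, ∫ s : ℝ, (ker s : ℂ) * ch (-(t * s)) = ((kh t : ℝ) : ℂ)

/-- `SINC`: bound for the Fourier transform of the kernel. -/
def SINC : Prop := kh 0 = 1 / 2 ∧ ∀ t : ℝ, 0 ≤ kh t ∧ kh t ≤ (1 / 2) * (1 / (1 + (9 / 10 * t) ^ 2) ^ 2)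

/-- `LIFT`: the periodization of a compactly supported continuous function is a continuous
function on the torus. -/
def LIFT : Prop := ∀ (n : ℕ) (F : (Fin n → ℝ) → ℂ), Continuous F → HasCompactSupport F →
  ∃ Φ : C(UnitAddTorus (Fin n), ℂ), ∀ x : Fin n → ℝ,
    Φ (fun i => (x i : UnitAddCircle)) = ∑' z : Fin n → ℤ, F (fun i => x i - z i)

/-- `COEF`: Fourier coefficients of the periodization. -/
def COEF : Prop := ∀ (n : ℕ) (F : (Fin n → ℝ) → ℂ), Continuous F → HasCompactSupport F →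
  ∀ Φ : C(UnitAddTorus (Fin n), ℂ), (∀ x : Fin n → ℝ,
    Φ (fun i => (x i : UnitAddCircle)) = ∑' z : Fin n → ℤ, F (fun i => x i - z i)) →
  ∀ y : Fin n → ℤ, UnitAddTorus.mFourierCoeff Φ y
    = ∫ x : Fin n → ℝ, F x * ch (-(∑ i, (y i : ℝ) * x i))

/-- `POIS`: Poisson summation. -/
def POIS : Prop := ∀ (n : ℕ) (F : (Fin n → ℝ) → ℂ), Continuous F → HasCompactSupport F →
  Summable (fun y : Fin n → ℤ => ‖∫ x : Fin n → ℝ, F x * ch (-(∑ i, (y i : ℝ) * x i))‖) →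
  ∀ x : Fin n → ℝ, HasSum (fun y : Fin n → ℤ =>
    (∫ u : Fin n → ℝ, F u * ch (-(∑ i, (y i : ℝ) * u i))) * ch (∑ i, (y i : ℝ) * x i))
    (∑' z : Fin n → ℤ, F (fun i => x i - z i))

/-- `CHV`: Fourier transform of the product kernel in the coordinates of the basis given by the
rows of `B`. -/
def CHV : Prop := ∀ (n : ℕ) (B : Matrix (Fin n) (Fin n) ℝ), B.det ≠ 0 → ∀ y : Fin n → ℝ,
  ∫ x : Fin n → ℝ, ((∏ j, ker ((x ᵥ* B⁻¹) j) : ℝ) : ℂ) * ch (-(∑ i, y i * x i))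
    = ((|B.det| * ∏ j, kh ((B *ᵥ y) j) : ℝ) : ℂ)

/-- `SEL`: selection of the large coordinates. -/
def SEL : Prop := ∀ (n : ℕ) (v : Fin n → ℝ), 0 < n → 128 * (n : ℝ) ≤ ∑ j, |v j| →
  ∃ K : Finset (Fin n), K.Nonempty ∧ ∑ j ∈ Kᶜ, |v j| ≤ 16 * n ∧
    (1 + (8 * (n : ℝ) / K.card) ^ 2) ^ K.card ≤ ∏ j, (1 + v j ^ 2)

/-- `SUM1`: the sum over points with distinct integral parts. -/
def SUM1 : Prop := ∀ (Y : Type) (J : Type) [Fintype J] [DecidableEq J] (S : Finset Y)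
  (v : Y → J → ℝ), (∀ y ∈ S, ∀ y' ∈ S, (∀ j, ⌊v y j⌋ = ⌊v y' j⌋) → y = y') →
  ∑ y ∈ S, ∏ j, (1 / (1 + v y j ^ 2)) ≤ 5 ^ Fintype.card J

/-- `NUM`: the final numerical sum. -/
def NUM : Prop := ∀ n : ℕ, 0 < n →
  ∑ K ∈ (univ : Finset (Finset (Fin n))).filter (fun K => K.Nonempty),
    (5 : ℝ) ^ K.card / (1 + (8 * (n : ℝ) / K.card) ^ 2) ^ K.card ≤ 1 / 2

/-- `LS`: the lattice sum. -/
def LS : Prop := ∀ (n : ℕ) (B : Matrix (Fin n) (Fin n) ℝ), 0 < n →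
  (∀ y : Fin n → ℤ, y ≠ 0 → 128 * (n : ℝ) ≤ ∑ j, |(B *ᵥ (fun i => (y i : ℝ))) j|) →
  ∀ S : Finset (Fin n → ℤ), (0 : Fin n → ℤ) ∉ S →
    ∑ y ∈ S, ∏ j, (1 / (1 + (B *ᵥ (fun i => (y i : ℝ))) j ^ 2) ^ 2) ≤ 1 / 2

end Pool.Agent.H239R2.Flat
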