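import Pool.Agent.H239R2.Flat.Defs

set_option autoImplicit false

namespace Pool.Agent.H239R2.Flat

open Finset MeasureTheory Matrix

theorem FIN_ker_prod_zero (hKC : KC) {n : ℕ} (l : Fin n → ℝ) (j : Fin n) (hj : 1 ≤ |l j|) :
    ∏ i, ker (l i) = 0 :=
  Finset.prod_eq_zero (Finset.mem_univ j) (hKC.2.2 _ hj)

theorem FIN_cont (hKC : KC) {n : ℕ} (B : Matrix (Fin n) (Fin n) ℝ) :
    Continuous (fun x : Fin n → ℝ => ((∏ j, ker ((x ᵥ* B⁻¹) j) : ℝ) : ℂ)) := by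
  refine Complex.continuous_ofReal.comp (continuous_finsetProd _ fun j _ => hKC.1.comp ?_)
  have : (fun x : Fin n → ℝ => (x ᵥ* B⁻¹) j) = fun x => ∑ i, x i * B⁻¹ i j := by
    funext x
    rfl
  rw [this]
  fun_prop

theorem FIN_supp (hKC : KC) {n : ℕ} (B : Matrix (Fin n) (Fin n) ℝ) (hB : B.det ≠ 0) :
    HasCompactSupport (fun x : Fin n → ℝ => ((∏ j, ker ((x ᵥ* B⁻¹) j) : ℝ) : ℂ)) := by
  have hcube : IsCompact (Set.pi Set.univ (fun _ : Fin n => Set.Icc (-1:ℝ) 1)) :=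
    isCompact_univ_pi fun _ => isCompact_Icc
  have hlin : Continuous (fun l : Fin n → ℝ => l ᵥ* B) := by
    refine continuous_pi fun i => ?_
    have : (fun l : Fin n → ℝ => (l ᵥ* B) i) = fun l => ∑ j, l j * B j i := by
      funext l
      rfl
    rw [this]
    fun_prop
  refine HasCompactSupport.intro (hcube.image hlin) fun x hx => ?_
  have hex : ∃ j, 1 ≤ |(x ᵥ* B⁻¹) j| := by
    by_contra hcon
    push Not at hcon
    apply hx
    refine ⟨x ᵥ* B⁻¹, ?_, ?_⟩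
    · intro j _
      exact abs_le.mp (hcon j).le
    · show (x ᵥ* B⁻¹) ᵥ* B = x
      rw [Matrix.vecMul_vecMul, Matrix.nonsing_inv_mul B (isUnit_iff_ne_zero.mpr hB),
        Matrix.vecMul_one]
  obtain ⟨j, hj⟩ := hex
  show ((∏ j, ker ((x ᵥ* B⁻¹) j) : ℝ) : ℂ) = 0
  rw [FIN_ker_prod_zero hKC _ j hj, Complex.ofReal_zero]

theorem FIN_ch_zero : ch 0 = 1 := by
  unfold ch
  simp

theorem FIN_ch_norm (x : ℝ) : ‖ch x‖ = 1 := by
  unfold ch
  have h1 : 2 * (Real.pi : ℂ) * Complex.I * (x : ℂ)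
      = ((2 * Real.pi * x : ℝ) : ℂ) * Complex.I := by
    push_cast; ring
  rw [h1, Complex.norm_exp_ofReal_mul_I]

/-- Linear flatness for parallelotopes. -/
theorem FIN_of (hKC : KC) (hS : SINC) (hP : POIS) (hC : CHV) (hL : LS) :
    ∀ (n : ℕ) (B : Matrix (Fin n) (Fin n) ℝ), 0 < n → B.det ≠ 0 → ∀ x₀ : Fin n → ℝ,
      (∀ z : Fin n → ℤ, ∃ j, 1 ≤ |((fun i => x₀ i - z i) ᵥ* B⁻¹) j|) →
      ∃ y : Fin n → ℤ, y ≠ 0 ∧ 2 * ∑ j, |(B *ᵥ (fun i => (y i : ℝ))) j| ≤ 300 * n := by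
  classical
  intro n B hn hB x₀ hfree
  by_contra hcon
  push Not at hcon
  have hnR : (0:ℝ) < n := by exact_mod_cast hn
  set F : (Fin n → ℝ) → ℂ := fun x => ((∏ j, ker ((x ᵥ* B⁻¹) j) : ℝ) : ℂ) with hF
  have hFc : Continuous F := FIN_cont hKC B
  have hFs : HasCompactSupport F := FIN_supp hKC B hB
  set D : ℝ := |B.det| with hD
  have hD0 : 0 < D := abs_pos.mpr hB
  let P : (Fin n → ℤ) → ℝ := fun y => ∏ j, kh ((B *ᵥ (fun i => (y i : ℝ))) j)
  have hP0 : ∀ y, 0 ≤ P y := fun y => Finset.prod_nonneg fun j _ => (hS.2 _).1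
  have hcoef : ∀ y : Fin n → ℤ, ∫ x : Fin n → ℝ, F x * ch (-(∑ i, (y i : ℝ) * x i))
      = ((D * P y : ℝ) : ℂ) := fun y => hC n B hB (fun i => (y i : ℝ))
  -- the lattice sum
  have hls : ∀ S : Finset (Fin n → ℤ), (0 : Fin n → ℤ) ∉ S →
      ∑ y ∈ S, P y ≤ (1 / 2) ^ n * (1 / 2) := by
    intro S h0
    have hmul : ∀ y : Fin n → ℤ, ∀ j, (((9 / 10 : ℝ) • B) *ᵥ (fun i => (y i : ℝ))) j
        = 9 / 10 * (B *ᵥ (fun i => (y i : ℝ))) j := by
      intro y j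
      rw [Matrix.smul_mulVec]
      rfl
    have h1 := hL n ((9 / 10 : ℝ) • B) hn (by
      intro y hy
      have h2 := hcon y hy
      have h3 : ∑ j, |(((9 / 10 : ℝ) • B) *ᵥ (fun i => (y i : ℝ))) j|
          = 9 / 10 * ∑ j, |(B *ᵥ (fun i => (y i : ℝ))) j| := by
        rw [Finset.mul_sum]
        refine Finset.sum_congr rfl fun j _ => ?_
        rw [hmul, abs_mul, abs_of_pos (by norm_num : (0:ℝ) < 9 / 10)]
      rw [h3]
      linarith) S h0
    refine le_trans ?_ (mul_le_mul_of_nonneg_left h1 (by positivity : (0:ℝ) ≤ (1 / 2) ^ n))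
    rw [Finset.mul_sum]
    refine Finset.sum_le_sum fun y _ => ?_
    have h4 : ∀ j, kh ((B *ᵥ (fun i => (y i : ℝ))) j) ≤ (1 / 2) *
        (1 / (1 + (((9 / 10 : ℝ) • B) *ᵥ (fun i => (y i : ℝ))) j ^ 2) ^ 2) := by
      intro j
      rw [hmul]
      exact (hS.2 _).2
    refine (Finset.prod_le_prod (fun j _ => (hS.2 _).1) (fun j _ => h4 j)).trans (le_of_eq ?_)
    rw [Finset.prod_mul_distrib, Finset.prod_const, Finset.card_univ, Fintype.card_fin]
  have hPzero : P 0 = (1 / 2) ^ n := by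
    show ∏ j, kh ((B *ᵥ (fun i => (((0 : Fin n → ℤ) i : ℤ) : ℝ))) j) = _
    have h1 : (fun i : Fin n => (((0 : Fin n → ℤ) i : ℤ) : ℝ)) = 0 := by
      funext i; simp
    rw [h1, Matrix.mulVec_zero]
    simp only [Pi.zero_apply, hS.1]
    rw [Finset.prod_const, Finset.card_univ, Fintype.card_fin]
  have hnorm : ∀ y : Fin n → ℤ, ‖∫ x : Fin n → ℝ, F x * ch (-(∑ i, (y i : ℝ) * x i))‖
      = D * P y := by
    intro y
    rw [hcoef, Complex.norm_real, Real.norm_of_nonneg (mul_nonneg hD0.le (hP0 y))]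
  have hsummable : Summable (fun y : Fin n → ℤ =>
      ‖∫ x : Fin n → ℝ, F x * ch (-(∑ i, (y i : ℝ) * x i))‖) := by
    refine summable_of_sum_le (c := D * ((1 / 2) ^ n + (1 / 2) ^ n * (1 / 2)))
      (fun y => norm_nonneg _) fun S => ?_
    have h1 : ∑ y ∈ S, ‖∫ x : Fin n → ℝ, F x * ch (-(∑ i, (y i : ℝ) * x i))‖
        = D * ∑ y ∈ S, P y := by
      rw [Finset.mul_sum]
      exact Finset.sum_congr rfl fun y _ => hnorm y
    rw [h1]
    refine mul_le_mul_of_nonneg_left ?_ hD0.le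
    have h2 : ∑ y ∈ S, P y ≤ ∑ y ∈ insert 0 (S.erase 0), P y :=
      Finset.sum_le_sum_of_subset_of_nonneg (by
        intro y hy
        rw [Finset.mem_insert, Finset.mem_erase]
        by_cases h : y = 0
        · exact Or.inl h
        · exact Or.inr ⟨h, hy⟩) (fun y _ _ => hP0 y)
    rw [Finset.sum_insert (Finset.notMem_erase _ _), hPzero] at h2
    have h3 := hls (S.erase 0) (Finset.notMem_erase _ _)
    linarith
  have hsum := hP n F hFc hFs hsummable x₀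
  have hzero : ∑' z : Fin n → ℤ, F (fun i => x₀ i - z i) = 0 := by
    have : ∀ z : Fin n → ℤ, F (fun i => x₀ i - z i) = 0 := by
      intro z
      obtain ⟨j, hj⟩ := hfree z
      show ((∏ j, ker (((fun i => x₀ i - z i) ᵥ* B⁻¹) j) : ℝ) : ℂ) = 0
      rw [FIN_ker_prod_zero hKC _ j hj, Complex.ofReal_zero]
    simp only [this]
    exact tsum_zero
  rw [hzero] at hsum
  have hlim := hsum.norm
  rw [norm_zero] at hlim
  have hge : ∀ᶠ S : Finset (Fin n → ℤ) in Filter.atTop, D * (1 / 2) ^ n * (1 / 2) ≤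
      ‖∑ y ∈ S, (∫ u : Fin n → ℝ, F u * ch (-(∑ i, (y i : ℝ) * u i)))
        * ch (∑ i, (y i : ℝ) * x₀ i)‖ := by
    filter_upwards [Filter.eventually_ge_atTop ({0} : Finset (Fin n → ℤ))] with S hS0
    have h0S : (0 : Fin n → ℤ) ∈ S := hS0 (Finset.mem_singleton_self _)
    rw [← Finset.add_sum_erase S _ h0S]
    have e0 : (∫ u : Fin n → ℝ, F u * ch (-(∑ i, (((0 : Fin n → ℤ) i : ℤ) : ℝ) * u i)))
        * ch (∑ i, (((0 : Fin n → ℤ) i : ℤ) : ℝ) * x₀ i) = ((D * (1 / 2) ^ n : ℝ) : ℂ) := by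
      rw [hcoef 0, hPzero]
      have : ∑ i, (((0 : Fin n → ℤ) i : ℤ) : ℝ) * x₀ i = 0 := by simp
      rw [this, FIN_ch_zero, mul_one]
    rw [e0]
    have h1 : ‖∑ y ∈ S.erase 0, (∫ u : Fin n → ℝ, F u * ch (-(∑ i, (y i : ℝ) * u i)))
        * ch (∑ i, (y i : ℝ) * x₀ i)‖ ≤ D * ((1 / 2) ^ n * (1 / 2)) := by
      refine (norm_sum_le _ _).trans ?_
      refine le_trans (le_of_eq ?_) (mul_le_mul_of_nonneg_left
        (hls (S.erase 0) (Finset.notMem_erase _ _)) hD0.le)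
      rw [Finset.mul_sum]
      refine Finset.sum_congr rfl fun y _ => ?_
      rw [norm_mul, FIN_ch_norm, mul_one, hnorm]
    have h2 := norm_sub_le_norm_add ((D * (1 / 2) ^ n : ℝ) : ℂ)
      (∑ y ∈ S.erase 0, (∫ u : Fin n → ℝ, F u * ch (-(∑ i, (y i : ℝ) * u i)))
        * ch (∑ i, (y i : ℝ) * x₀ i))
    have h3 : ‖((D * (1 / 2) ^ n : ℝ) : ℂ)‖ = D * (1 / 2) ^ n := by
      rw [Complex.norm_real, Real.norm_of_nonneg (by positivity)]
    rw [h3] at h2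
    linarith
  have hfin := ge_of_tendsto hlim hge
  have : 0 < D * (1 / 2) ^ n * (1 / 2) := by positivity
  linarith

end Pool.Agent.H239R2.Flat
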