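import Pool.Agent.H239R2.Flat.Defs

set_option autoImplicit false

/-!
FT1: Fourier transform of the triangle function.
-/

namespace Pool.Agent.H239R2.Flat

open Finset MeasureTheory Matrix

theorem FT1_tri_cont : Continuous tri := by unfold tri; fun_prop

theorem FT1_tri_zero {s : ℝ} (h : 1 ≤ |s|) : tri s = 0 := by
  unfold tri
  exact max_eq_left (by linarith)

theorem FT1_tri_pos {s : ℝ} (h0 : 0 ≤ s) (h1 : s ≤ 1) : tri s = 1 - s := by
  unfold tri
  rw [abs_of_nonneg h0]
  exact max_eq_right (by linarith)

theorem FT1_ch (x : ℝ) : ch x = (Real.cos (2 * Real.pi * x) : ℂ) +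
    (Real.sin (2 * Real.pi * x) : ℂ) * Complex.I := by
  unfold ch
  rw [show (2 * Real.pi * Complex.I * (x : ℂ) : ℂ) = ((2 * Real.pi * x : ℝ) : ℂ) * Complex.I by
    push_cast; ring, Complex.exp_mul_I]
  push_cast
  rfl

theorem FT1_int (a : ℝ) : ∫ x in (0 : ℝ)..1, (1 - x) * Real.cos (a * x) =
    if a = 0 then 1 / 2 else (1 - Real.cos a) / a ^ 2 := by
  split_ifs with ha
  · subst ha
    simp only [zero_mul, Real.cos_zero, mul_one]
    rw [intervalIntegral.integral_sub (by simp) (by simp)]
    simp
    norm_num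
  · have h : ∀ x ∈ Set.uIcc (0 : ℝ) 1, HasDerivAt
        (fun x => (1 - x) * (Real.sin (a * x) / a) - Real.cos (a * x) / a ^ 2)
        ((1 - x) * Real.cos (a * x)) x := by
      intro x _
      have h1 : HasDerivAt (fun x => a * x) a x := by
        simpa using (hasDerivAt_id x).const_mul a
      have h2 : HasDerivAt (fun x => Real.sin (a * x) / a) (Real.cos (a * x) * a / a) x :=
        (h1.sin).div_const a
      have h3 : HasDerivAt (fun x => Real.cos (a * x) / a ^ 2) (-Real.sin (a * x) * a / a ^ 2) x :=
        (h1.cos).div_const _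
      have h4 : HasDerivAt (fun x : ℝ => 1 - x) (-1) x := by
        simpa using (hasDerivAt_id x).const_sub 1
      have h5 := (h4.mul h2).sub h3
      have e : (1 - x) * Real.cos (a * x) = (-1 * (Real.sin (a * x) / a) +
          (1 - x) * (Real.cos (a * x) * a / a)) - (-Real.sin (a * x) * a / a ^ 2) := by
        field_simp
        ring
      rw [e]
      exact h5
    rw [intervalIntegral.integral_eq_sub_of_hasDerivAt h]
    · simp
      ring
    · apply Continuous.intervalIntegrable
      fun_prop

theorem FT1_holds : FT1 := by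
  intro t
  set f : ℝ → ℂ := fun s => (tri s : ℂ) * ch (-(t * s)) with hf
  have hfc : Continuous f := by
    rw [hf]
    have : Continuous fun s : ℝ => ch (-(t * s)) := by unfold ch; fun_prop
    exact (Complex.continuous_ofReal.comp FT1_tri_cont).mul this
  have hfs : HasCompactSupport f := by
    refine HasCompactSupport.intro (isCompact_Icc (a := (-1 : ℝ)) (b := 1)) ?_
    intro s hs
    have : 1 ≤ |s| := by
      by_contra h
      push Not at h
      rw [abs_lt] at h
      exact hs ⟨h.1.le, h.2.le⟩
    rw [hf]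
    simp [FT1_tri_zero this]
  have hfi : Integrable f := hfc.integrable_of_hasCompactSupport hfs
  have h1 : ∫ s, f s = ∫ s, f (-s) := (integral_neg_eq_self f volume).symm
  have h2 : 2 * ∫ s, f s = ∫ s, (f s + f (-s)) := by
    rw [integral_add hfi hfi.comp_neg, ← h1]; ring
  have h3 : ∀ s, f s + f (-s) = ((2 * (tri s * Real.cos (2 * Real.pi * t * s)) : ℝ) : ℂ) := by
    intro s
    have e1 : tri (-s) = tri s := by unfold tri; rw [abs_neg]
    rw [hf]
    simp only []
    rw [e1, FT1_ch, FT1_ch]
    have e2 : 2 * Real.pi * -(t * s) = -(2 * Real.pi * t * s) := by ring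
    have e3 : 2 * Real.pi * -(t * -s) = 2 * Real.pi * t * s := by ring
    rw [e2, e3, Real.cos_neg, Real.sin_neg]
    push_cast
    ring
  have h4 : ∫ s, f s = ((∫ s : ℝ, tri s * Real.cos (2 * Real.pi * t * s) : ℝ) : ℂ) := by
    have e1 : ∫ s, (f s + f (-s)) =
        ((2 * ∫ s : ℝ, tri s * Real.cos (2 * Real.pi * t * s) : ℝ) : ℂ) := by
      simp_rw [h3]
      rw [integral_complex_ofReal, integral_const_mul]
    rw [e1] at h2
    push_cast at h2
    have : (2 : ℂ) ≠ 0 := by norm_num
    exact mul_left_cancel₀ this h2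
  have h5 : ∫ s : ℝ, tri s * Real.cos (2 * Real.pi * t * s) =
      2 * ∫ x in (0 : ℝ)..1, (1 - x) * Real.cos (2 * Real.pi * t * x) := by
    have e1 : ∫ s : ℝ, tri s * Real.cos (2 * Real.pi * t * s) =
        ∫ s : ℝ, (fun x => tri x * Real.cos (2 * Real.pi * t * x)) |s| := by
      apply integral_congr_ae
      refine Filter.Eventually.of_forall fun s => ?_
      simp only []
      have e2 : tri |s| = tri s := by unfold tri; rw [abs_abs]
      rw [e2]
      rcases abs_choice s with h | h
      · rw [h]
      · rw [h, show 2 * Real.pi * t * -s = -(2 * Real.pi * t * s) by ring, Real.cos_neg]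
    rw [e1]
    refine (integral_comp_abs (f := fun x => tri x * Real.cos (2 * Real.pi * t * x))).trans ?_
    congr 1
    rw [intervalIntegral.integral_of_le (by norm_num)]
    have e3 : ∫ x in Set.Ioi (0 : ℝ), tri x * Real.cos (2 * Real.pi * t * x) =
        ∫ x in Set.Ioc (0 : ℝ) 1, tri x * Real.cos (2 * Real.pi * t * x) := by
      refine setIntegral_eq_of_subset_of_forall_diff_eq_zero measurableSet_Ioi
        Set.Ioc_subset_Ioi_self ?_
      intro x hx
      have hx0 : 0 < x := hx.1
      have hx1 : 1 < x := by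
        by_contra h
        exact hx.2 ⟨hx0, not_lt.1 h⟩
      rw [FT1_tri_zero (by rw [abs_of_pos hx0]; exact hx1.le), zero_mul]
    rw [e3]
    refine setIntegral_congr_fun measurableSet_Ioc fun x hx => ?_
    show tri x * Real.cos (2 * Real.pi * t * x) = (1 - x) * Real.cos (2 * Real.pi * t * x)
    rw [FT1_tri_pos hx.1.le hx.2]
  show ∫ s, f s = _
  rw [h4, h5, FT1_int]
  congr 1
  split_ifs with h
  · have ht : t = 0 := by
      rcases mul_eq_zero.1 h with h | h
      · exact absurd h (by positivity)
      · exact h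
    rw [ht, mul_zero, Real.sinc_zero]
    norm_num
  · have ht : t ≠ 0 := by rintro rfl; exact h (by ring)
    have hp : Real.pi ≠ 0 := Real.pi_ne_zero
    rw [Real.sinc_of_ne_zero (mul_ne_zero hp ht)]
    have e : Real.cos (2 * Real.pi * t) = 1 - 2 * Real.sin (Real.pi * t) ^ 2 := by
      rw [show 2 * Real.pi * t = 2 * (Real.pi * t) by ring, Real.cos_two_mul]
      have := Real.sin_sq_add_cos_sq (Real.pi * t)
      linarith
    rw [e]
    field_simp
    ring

end Pool.Agent.H239R2.Flat
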