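import Pool.Agent.H239R2.Flat.Defs

set_option autoImplicit false

namespace Pool.Agent.H239R2.Flat

open Finset MeasureTheory Matrix

theorem FT2_conv (f : ℝ → ℝ) (E : ℝ → ℂ) (hf : Integrable f) (hEc : Continuous E)
    (hE1 : ∀ x, ‖E x‖ = 1) (hEm : ∀ x y, E (x + y) = E x * E y) :
    ∫ s, ((∫ u, f (s - u) * f u : ℝ) : ℂ) * E s = (∫ s, (f s : ℂ) * E s) ^ 2 := by
  have hg : Integrable (fun s => (f s : ℂ) * E s) := by
    refine Integrable.mono' hf.norm ?_ ?_
    · exact (Complex.continuous_ofReal.comp_aestronglyMeasurable hf.aestronglyMeasurable).mul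
        hEc.aestronglyMeasurable
    · refine Filter.Eventually.of_forall (fun s => ?_)
      rw [norm_mul, hE1, mul_one, Complex.norm_real]
  have h1 := integral_convolution (ContinuousLinearMap.mul ℝ ℂ) hg hg
  rw [ContinuousLinearMap.mul_apply'] at h1
  rw [sq, ← h1]
  congr 1
  ext s
  rw [convolution_def]
  have h2 : ∀ u, (ContinuousLinearMap.mul ℝ ℂ) ((f u : ℂ) * E u) ((f (s - u) : ℂ) * E (s - u)) =
      ((f (s - u) * f u : ℝ) : ℂ) * E s := by
    intro u
    have h3 : E s = E (s - u) * E u := by rw [← hEm, sub_add_cancel]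
    rw [ContinuousLinearMap.mul_apply', h3]
    push_cast
    ring
  simp_rw [h2]
  rw [integral_mul_const]
  congr 1
  exact (integral_ofReal (𝕜 := ℂ) (f := fun u => f (s - u) * f u)).symm

theorem FT2_scale (g : ℝ → ℂ) : ∫ s, g (2 * s) = (1 / 2 : ℂ) * ∫ s, g s := by
  rw [Measure.integral_comp_mul_left g 2]
  rw [abs_of_pos (by norm_num)]
  rw [Complex.real_smul]
  push_cast
  ring

theorem FT2_tri_cont : Continuous tri := by
  unfold tri
  fun_prop

theorem FT2_tri_int : Integrable tri := by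
  refine FT2_tri_cont.integrable_of_hasCompactSupport ?_
  refine HasCompactSupport.intro (isCompact_Icc (a := (-1 : ℝ)) (b := 1)) (fun x hx => ?_)
  unfold tri
  refine max_eq_left ?_
  rw [Set.mem_Icc, ← abs_le] at hx
  linarith [not_le.1 hx]

theorem FT2_of (h : FT1) : FT2 := by
  intro t
  set E : ℝ → ℂ := fun s => ch (-((t / 2) * s)) with hE
  have hEc : Continuous E := by
    rw [hE]
    unfold ch
    fun_prop
  have hE1 : ∀ x, ‖E x‖ = 1 := by
    intro x
    show ‖ch (-((t / 2) * x))‖ = 1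
    unfold ch
    have h1 : (2 * Real.pi * Complex.I * ((-((t / 2) * x) : ℝ) : ℂ)) =
        ((2 * Real.pi * (-((t / 2) * x)) : ℝ) : ℂ) * Complex.I := by
      push_cast
      ring
    rw [h1, Complex.norm_exp_ofReal_mul_I]
  have hEm : ∀ x y, E (x + y) = E x * E y := by
    intro x y
    show ch (-((t / 2) * (x + y))) = ch (-((t / 2) * x)) * ch (-((t / 2) * y))
    unfold ch
    rw [← Complex.exp_add]
    congr 1
    push_cast
    ring
  have h1 := FT2_conv tri E FT2_tri_int hEc hE1 hEm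
  have h2 : ∫ s : ℝ, (ker s : ℂ) * ch (-(t * s)) = ∫ s : ℝ, (fun x => (spl x : ℂ) * E x) (2 * s) := by
    congr 1
    ext s
    show (ker s : ℂ) * ch (-(t * s)) = (spl (2 * s) : ℂ) * ch (-((t / 2) * (2 * s)))
    rw [show (t / 2) * (2 * s) = t * s by ring]
    rfl
  rw [h2, FT2_scale (fun x => (spl x : ℂ) * E x)]
  have h3 : ∫ s : ℝ, (spl s : ℂ) * E s = ((Real.sinc (Real.pi * (t / 2)) ^ 2 : ℝ) : ℂ) ^ 2 := by
    rw [← h (t / 2)]
    exact h1
  rw [h3]
  unfold kh
  rw [show Real.pi * t / 2 = Real.pi * (t / 2) by ring]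
  push_cast
  ring

end Pool.Agent.H239R2.Flat
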