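import Mathlib

set_option autoImplicit false

/-!
Passing between bodies in `ℝ^n` and matrices.
-/

namespace Pool.Agent.H239R2.Flat

open Finset Matrix

theorem G_sum {n : ℕ} (b : Fin n → Fin n → ℝ) (l : Fin n → ℝ) :
    ∑ j, l j • b j = l ᵥ* Matrix.of b := by
  rw [Matrix.vecMul_eq_sum]
  rfl

theorem G_det {n : ℕ} (b : Fin n → Fin n → ℝ) (hb : LinearIndependent ℝ b) :
    (Matrix.of b).det ≠ 0 := by
  have h : LinearIndependent ℝ (fun i => (Matrix.of b).row i) := hb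
  rw [Matrix.linearIndependent_rows_iff_isUnit] at h
  exact isUnit_iff_ne_zero.mp ((Matrix.isUnit_iff_isUnit_det _).mp h)

theorem G_interior {n : ℕ} (B : Matrix (Fin n) (Fin n) ℝ) (hB : B.det ≠ 0) (x₀ : Fin n → ℝ)
    (q : (Fin n → ℝ) → ℝ) (hq : Continuous q) (K : Set (Fin n → ℝ))
    (hK : ∀ l, q l ≤ 1 → x₀ + l ᵥ* B ∈ K) (z : Fin n → ℝ) (hz : z ∉ interior K) :
    1 ≤ q ((z - x₀) ᵥ* B⁻¹) := by
  by_contra hcon
  push Not at hcon
  apply hz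
  have hc : Continuous (fun x : Fin n → ℝ => (x - x₀) ᵥ* B⁻¹) := by
    refine continuous_pi fun j => ?_
    have : (fun x : Fin n → ℝ => ((x - x₀) ᵥ* B⁻¹) j) = fun x => ∑ i, (x i - x₀ i) * B⁻¹ i j := by
      funext x
      rfl
    rw [this]
    fun_prop
  refine mem_interior.mpr ⟨{x | q ((x - x₀) ᵥ* B⁻¹) < 1}, fun x hx => ?_,
    isOpen_lt (hq.comp hc) continuous_const, hcon⟩
  have h1 := hK ((x - x₀) ᵥ* B⁻¹) (le_of_lt hx)
  rw [Matrix.vecMul_vecMul, Matrix.nonsing_inv_mul B (isUnit_iff_ne_zero.mpr hB),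
    Matrix.vecMul_one] at h1
  have h2 : x₀ + (x - x₀) = x := by
    funext i; simp
  rw [h2] at h1
  exact h1

theorem G_width {n : ℕ} (B : Matrix (Fin n) (Fin n) ℝ) (y : Fin n → ℝ) (x₁ l l' : Fin n → ℝ) :
    ∑ i, y i * ((x₁ + l ᵥ* B) i - (x₁ + l' ᵥ* B) i) = ∑ j, (l j - l' j) * (B *ᵥ y) j := by
  have h1 : ∀ i, (x₁ + l ᵥ* B) i - (x₁ + l' ᵥ* B) i = ((l - l') ᵥ* B) i := by
    intro i
    rw [Matrix.sub_vecMul]
    simp
  simp only [h1]
  have h2 : ∑ i, y i * ((l - l') ᵥ* B) i = ((l - l') ᵥ* B) ⬝ᵥ y := by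
    rw [dotProduct]
    exact Finset.sum_congr rfl fun i _ => mul_comm _ _
  rw [h2, ← Matrix.dotProduct_mulVec]
  rfl

/-- From the matrix form to bodies: bodies containing a parallelotope. -/
theorem GA_of (hT : ∀ (n : ℕ) (B : Matrix (Fin n) (Fin n) ℝ), 0 < n → B.det ≠ 0 →
      ∀ x₀ : Fin n → ℝ, (∀ z : Fin n → ℤ, ∃ j, 1 ≤ |((fun i => x₀ i - z i) ᵥ* B⁻¹) j|) →
      ∃ y : Fin n → ℤ, y ≠ 0 ∧ ∑ j, (B *ᵥ (fun i => (y i : ℝ))) j ^ 2 ≤ 324 * n)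
    (n : ℕ) (hn : 0 < n) (b : Fin n → Fin n → ℝ) (hb : LinearIndependent ℝ b)
    (x₀ x₁ : Fin n → ℝ) (t : ℝ) (ht : 0 ≤ t) (K : Set (Fin n → ℝ))
    (hK₀ : ∀ l : Fin n → ℝ, (∀ j, |l j| ≤ 1) → x₀ + ∑ j, l j • b j ∈ K)
    (hK₁ : ∀ x ∈ K, ∃ l : Fin n → ℝ, ∑ j, l j ^ 2 ≤ t ^ 2 * n ∧ x = x₁ + ∑ j, l j • b j)
    (hfree : ∀ z : Fin n → ℤ, (fun i => (z i : ℝ)) ∉ interior K) :
    ∃ y : Fin n → ℤ, y ≠ 0 ∧ ∀ x ∈ K, ∀ w ∈ K, ∑ i, (y i : ℝ) * (x i - w i) ≤ 36 * t * n := by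
  have hB := G_det b hb
  have hnR : (0:ℝ) < n := by exact_mod_cast hn
  obtain ⟨y, hy0, hy⟩ := hT n (Matrix.of b) hn hB x₀ (by
    intro z
    have h1 := G_interior (Matrix.of b) hB x₀ (fun l => ‖l‖) continuous_norm K (by
      intro l hl
      rw [← G_sum]
      refine hK₀ l fun j => ?_
      exact (norm_le_pi_norm l j).trans hl) (fun i => (z i : ℝ)) (hfree z)
    by_contra hcon
    push Not at hcon
    have h2 : ‖((fun i => (z i : ℝ)) - x₀) ᵥ* (Matrix.of b)⁻¹‖ < 1 := by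
      rw [pi_norm_lt_iff zero_lt_one]
      intro j
      rw [Real.norm_eq_abs]
      have h3 : ((fun i => (z i : ℝ)) - x₀) = -(fun i => x₀ i - z i) := by
        funext i; simp
      rw [h3, Matrix.neg_vecMul, Pi.neg_apply, abs_neg]
      exact hcon j
    exact absurd h1 (not_le.mpr h2))
  refine ⟨y, hy0, fun x hx w hw => ?_⟩
  obtain ⟨l, hl, rfl⟩ := hK₁ x hx
  obtain ⟨l', hl', rfl⟩ := hK₁ w hw
  rw [G_sum, G_sum, G_width]
  have h1 : ∑ j, (l j - l' j) ^ 2 ≤ 4 * (t ^ 2 * n) := by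
    have : ∑ j, (l j - l' j) ^ 2 ≤ ∑ j, (2 * l j ^ 2 + 2 * l' j ^ 2) := by
      refine Finset.sum_le_sum fun j _ => ?_
      nlinarith [sq_nonneg (l j + l' j)]
    rw [Finset.sum_add_distrib, ← Finset.mul_sum, ← Finset.mul_sum] at this
    linarith
  have h2 := Finset.sum_mul_sq_le_sq_mul_sq univ (fun j => l j - l' j)
    (fun j => (Matrix.of b *ᵥ (fun i => (y i : ℝ))) j)
  have h3 : (∑ j, (l j - l' j) * (Matrix.of b *ᵥ (fun i => (y i : ℝ))) j) ^ 2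
      ≤ (36 * t * n) ^ 2 := by
    refine h2.trans ?_
    have h4 : (∑ j, (l j - l' j) ^ 2) *
        (∑ j, (Matrix.of b *ᵥ (fun i => (y i : ℝ))) j ^ 2) ≤ (4 * (t ^ 2 * n)) * (324 * n) :=
      mul_le_mul h1 hy (Finset.sum_nonneg fun j _ => sq_nonneg _) (by positivity)
    refine h4.trans (le_of_eq ?_)
    ring
  exact (abs_le_of_sq_le_sq h3 (by positivity)) |> (le_abs_self _).trans

/-- From the matrix form to bodies: bodies containing an ellipsoid. -/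
theorem GB_of (hT : ∀ (n : ℕ) (B : Matrix (Fin n) (Fin n) ℝ), 0 < n → B.det ≠ 0 →
      ∀ x₀ : Fin n → ℝ,
      (∀ z : Fin n → ℤ, 1 ≤ (n : ℝ) * ∑ j, (((fun i => (z i : ℝ) - x₀ i) ᵥ* B⁻¹) j) ^ 2) →
      ∃ y : Fin n → ℤ, y ≠ 0 ∧ ∀ j, 2 * |(B *ᵥ (fun i => (y i : ℝ))) j| ≤ n)
    (n : ℕ) (hn : 0 < n) (b : Fin n → Fin n → ℝ) (hb : LinearIndependent ℝ b)
    (x₀ x₁ : Fin n → ℝ) (t : ℝ) (K : Set (Fin n → ℝ))
    (hK₀ : ∀ l : Fin n → ℝ, (n : ℝ) * ∑ j, l j ^ 2 ≤ 1 → x₀ + ∑ j, l j • b j ∈ K)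
    (hK₁ : ∀ x ∈ K, ∃ l : Fin n → ℝ, ∑ j, |l j| ≤ t ∧ x = x₁ + ∑ j, l j • b j)
    (hfree : ∀ z : Fin n → ℤ, (fun i => (z i : ℝ)) ∉ interior K) :
    ∃ y : Fin n → ℤ, y ≠ 0 ∧ ∀ x ∈ K, ∀ w ∈ K, ∑ i, (y i : ℝ) * (x i - w i) ≤ t * n := by
  have hB := G_det b hb
  have hnR : (0:ℝ) < n := by exact_mod_cast hn
  obtain ⟨y, hy0, hy⟩ := hT n (Matrix.of b) hn hB x₀ (by
    intro z
    exact G_interior (Matrix.of b) hB x₀ (fun l => (n : ℝ) * ∑ j, l j ^ 2) (by fun_prop) K (by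
      intro l hl
      rw [← G_sum]
      exact hK₀ l hl) (fun i => (z i : ℝ)) (hfree z))
  refine ⟨y, hy0, fun x hx w hw => ?_⟩
  obtain ⟨l, hl, rfl⟩ := hK₁ x hx
  obtain ⟨l', hl', rfl⟩ := hK₁ w hw
  rw [G_sum, G_sum, G_width]
  have h1 : ∑ j, (l j - l' j) * (Matrix.of b *ᵥ (fun i => (y i : ℝ))) j
      ≤ ∑ j, (|l j| + |l' j|) * ((n : ℝ) / 2) := by
    refine Finset.sum_le_sum fun j _ => ?_
    refine (le_abs_self _).trans ?_
    rw [abs_mul]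
    refine mul_le_mul (abs_sub _ _) ?_ (abs_nonneg _) (by positivity)
    have := hy j
    linarith
  rw [← Finset.sum_mul, Finset.sum_add_distrib] at h1
  nlinarith

/-- The extremal cross-polytope. -/
theorem GB_sharp (n : ℕ) (hn : 0 < n) :
    ∃ b : Fin n → Fin n → ℝ, LinearIndependent ℝ b ∧ ∃ x₀ : Fin n → ℝ,
      (∀ z : Fin n → ℤ, (fun i => (z i : ℝ)) ∉
        interior {x | ∃ l : Fin n → ℝ, ∑ j, |l j| ≤ 1 ∧ x = x₀ + ∑ j, l j • b j}) ∧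
      ∀ y : Fin n → ℤ, y ≠ 0 →
        ∃ x ∈ {x | ∃ l : Fin n → ℝ, ∑ j, |l j| ≤ 1 ∧ x = x₀ + ∑ j, l j • b j},
        ∃ w ∈ {x | ∃ l : Fin n → ℝ, ∑ j, |l j| ≤ 1 ∧ x = x₀ + ∑ j, l j • b j},
          (n : ℝ) ≤ ∑ i, (y i : ℝ) * (x i - w i) := by
  classical
  have hnR : (0:ℝ) < n := by exact_mod_cast hn
  let b : Fin n → Fin n → ℝ := fun j => Pi.single j ((n : ℝ) / 2)
  have hsum : ∀ (l : Fin n → ℝ) (i : Fin n), (∑ j, l j • b j) i = l i * ((n : ℝ) / 2) := by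
    intro l i
    rw [Finset.sum_apply]
    simp only [Pi.smul_apply, smul_eq_mul, b]
    rw [Finset.sum_eq_single i]
    · rw [Pi.single_eq_same]
    · intro j _ hj
      rw [Pi.single_eq_of_ne (Ne.symm hj), mul_zero]
    · intro h; exact absurd (Finset.mem_univ i) h
  refine ⟨b, ?_, fun _ => 1 / 2, ?_, ?_⟩
  · rw [Fintype.linearIndependent_iff]
    intro g hg i
    have h1 := congrFun hg i
    rw [hsum] at h1
    have h2 : ((n : ℝ) / 2) ≠ 0 := by positivity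
    simpa [h2] using h1
  · intro z hz
    rw [mem_interior_iff_mem_nhds] at hz
    have hpath : Filter.Tendsto (fun e : ℝ => (fun i => (z i : ℝ) + e * ((z i : ℝ) - 1 / 2)))
        (nhds 0) (nhds (fun i => (z i : ℝ))) := by
      have hc : Continuous (fun e : ℝ => (fun i : Fin n => (z i : ℝ) + e * ((z i : ℝ) - 1 / 2))) := by
        fun_prop
      have := hc.tendsto 0
      simpa using this
    have hev := hpath.eventually hz
    have hev2 : ∀ᶠ e in nhdsWithin (0:ℝ) (Set.Ioi 0),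
        (fun i => (z i : ℝ) + e * ((z i : ℝ) - 1 / 2)) ∈
          {x | ∃ l : Fin n → ℝ, ∑ j, |l j| ≤ 1 ∧ x = (fun _ => 1 / 2) + ∑ j, l j • b j} :=
      nhdsWithin_le_nhds hev
    obtain ⟨e, ⟨l, hl, he⟩, he0⟩ := (hev2.and self_mem_nhdsWithin).exists
    have he0' : 0 < e := he0
    have h1 : ∀ i, (1 + e) * ((z i : ℝ) - 1 / 2) = l i * ((n : ℝ) / 2) := by
      intro i
      have h2 := congrFun he i
      rw [Pi.add_apply, hsum] at h2
      linarith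
    have h3 : ∀ i, (1 + e) * (1 / 2) ≤ |l i| * ((n : ℝ) / 2) := by
      intro i
      have h4 : |l i| * ((n : ℝ) / 2) = (1 + e) * |(z i : ℝ) - 1 / 2| := by
        rw [← abs_of_pos (show (0:ℝ) < (n : ℝ) / 2 by positivity), ← abs_mul, ← h1 i, abs_mul,
          abs_of_pos (show (0:ℝ) < 1 + e by linarith)]
      rw [h4]
      refine mul_le_mul_of_nonneg_left ?_ (by linarith)
      rcases le_or_gt (z i) 0 with hz0 | hz0
      · have : (z i : ℝ) ≤ 0 := by exact_mod_cast hz0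
        rw [abs_of_nonpos (by linarith)]
        linarith
      · have : (1:ℝ) ≤ (z i : ℝ) := by exact_mod_cast hz0
        rw [abs_of_nonneg (by linarith)]
        linarith
    have h5 := Finset.sum_le_sum (s := (univ : Finset (Fin n))) (fun i _ => h3 i)
    rw [Finset.sum_const, Finset.card_univ, Fintype.card_fin, nsmul_eq_mul,
      ← Finset.sum_mul] at h5
    have h6 : (∑ i, |l i|) * ((n : ℝ) / 2) ≤ 1 * ((n : ℝ) / 2) :=
      mul_le_mul_of_nonneg_right hl (by positivity)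
    nlinarith
  · intro y hy
    obtain ⟨i₀, hi₀⟩ : ∃ i, y i ≠ 0 := by
      by_contra hcon
      push Not at hcon
      exact hy (funext hcon)
    have hmem : ∀ c : ℝ, |c| ≤ 1 → ((fun _ => 1 / 2) + ∑ j, (Pi.single i₀ c : Fin n → ℝ) j • b j) ∈
        {x | ∃ l : Fin n → ℝ, ∑ j, |l j| ≤ 1 ∧ x = (fun _ => 1 / 2) + ∑ j, l j • b j} := by
      intro c hc
      refine ⟨Pi.single i₀ c, ?_, rfl⟩
      rw [Finset.sum_eq_single i₀]
      · rw [Pi.single_eq_same]; exact hc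
      · intro j _ hj
        rw [Pi.single_eq_of_ne hj, abs_zero]
      · intro h; exact absurd (Finset.mem_univ i₀) h
    have hval : ∀ c : ℝ, ∑ i, (y i : ℝ) *
        (((fun _ => 1 / 2 : Fin n → ℝ) + ∑ j, (Pi.single i₀ c : Fin n → ℝ) j • b j) i -
         ((fun _ => 1 / 2 : Fin n → ℝ) + ∑ j, (Pi.single i₀ (-c) : Fin n → ℝ) j • b j) i) =
        (y i₀ : ℝ) * (c * n) := by
      intro c
      rw [Finset.sum_eq_single i₀]
      · rw [Pi.add_apply, Pi.add_apply, hsum, hsum, Pi.single_eq_same, Pi.single_eq_same]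
        ring
      · intro j _ hj
        rw [Pi.add_apply, Pi.add_apply, hsum, hsum, Pi.single_eq_of_ne hj, Pi.single_eq_of_ne hj]
        ring
      · intro h; exact absurd (Finset.mem_univ i₀) h
    rcases lt_or_gt_of_ne hi₀ with h | h
    · refine ⟨_, hmem (-1) (by norm_num), _, hmem (-(-1)) (by norm_num), ?_⟩
      rw [hval]
      have : (y i₀ : ℝ) ≤ -1 := by exact_mod_cast Int.le_sub_one_of_lt h
      nlinarith
    · refine ⟨_, hmem 1 (by norm_num), _, hmem (-1) (by norm_num), ?_⟩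
      rw [hval]
      have : (1:ℝ) ≤ (y i₀ : ℝ) := by exact_mod_cast h
      nlinarith

end Pool.Agent.H239R2.Flat
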