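import Pool.Agent.H239R2.Flat.Defs

set_option autoImplicit false

namespace Pool.Agent.H239R2.Flat

open MeasureTheory

lemma KC_tri_cont : Continuous tri := by
  unfold tri
  exact continuous_const.max (continuous_const.sub continuous_abs)

lemma KC_tri_nonneg (s : ℝ) : 0 ≤ tri s := le_max_left _ _

lemma KC_tri_le (s : ℝ) : tri s ≤ 1 := by
  unfold tri
  refine max_le zero_le_one ?_
  have := abs_nonneg s
  linarith

lemma KC_tri_zero (s : ℝ) (h : 1 ≤ |s|) : tri s = 0 := by
  unfold tri
  exact max_eq_left (by linarith)

lemma KC_tri_supp : HasCompactSupport tri := by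
  refine HasCompactSupport.intro (isCompact_Icc : IsCompact (Set.Icc (-1 : ℝ) 1)) ?_
  intro x hx
  apply KC_tri_zero
  by_contra h
  push Not at h
  rw [abs_lt] at h
  exact hx ⟨h.1.le, h.2.le⟩

lemma KC_spl_cont : Continuous spl := by
  unfold spl
  refine continuous_of_dominated (bound := tri) ?_ ?_ ?_ ?_
  · intro s
    exact ((KC_tri_cont.comp (continuous_const.sub continuous_id)).mul
      KC_tri_cont).aestronglyMeasurable
  · intro s
    refine Filter.Eventually.of_forall fun u => ?_
    rw [Real.norm_eq_abs, abs_of_nonneg (mul_nonneg (KC_tri_nonneg _) (KC_tri_nonneg _))]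
    have h1 := KC_tri_le (s - u)
    have h2 := KC_tri_nonneg u
    nlinarith
  · exact KC_tri_cont.integrable_of_hasCompactSupport KC_tri_supp
  · refine Filter.Eventually.of_forall fun u => ?_
    exact (KC_tri_cont.comp (continuous_id.sub continuous_const)).mul continuous_const

theorem KC_holds : KC := by
  refine ⟨?_, ?_, ?_⟩
  · exact KC_spl_cont.comp (continuous_const.mul continuous_id)
  · intro s
    exact integral_nonneg fun u => mul_nonneg (KC_tri_nonneg _) (KC_tri_nonneg _)
  · intro s hs
    show ∫ u : ℝ, tri (2 * s - u) * tri u = 0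
    have h0 : (fun u : ℝ => tri (2 * s - u) * tri u) = fun _ => 0 := by
      funext u
      rcases le_or_gt 1 |u| with h | h
      · rw [KC_tri_zero u h, mul_zero]
      · have h1 : 1 ≤ |2 * s - u| := by
          have h2 : |2 * s| - |u| ≤ |2 * s - u| := abs_sub_abs_le_abs_sub _ _
          rw [abs_mul, abs_of_pos (show (0 : ℝ) < 2 by norm_num)] at h2
          linarith
        rw [KC_tri_zero _ h1, zero_mul]
    rw [h0]
    exact integral_zero _ _

end Pool.Agent.H239R2.Flat
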