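import Pool.Agent.H239R2.Flat.Defs

set_option autoImplicit false

/-!
`LIFT`: the periodization of a compactly supported continuous function is a continuous function
on the torus.
-/

namespace Pool.Agent.H239R2.Flat

open Finset MeasureTheory Matrix Topology

/-- the quotient map onto the torus -/
noncomputable def LIFT_q (n : ℕ) : C(Fin n → ℝ, UnitAddTorus (Fin n)) where
  toFun := Pi.map fun (_ : Fin n) (t : ℝ) => (t : UnitAddCircle)
  continuous_toFun := (IsOpenQuotientMap.piMap fun _ =>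
    QuotientAddGroup.isOpenQuotientMap_mk).continuous

theorem LIFT_q_quot (n : ℕ) : IsQuotientMap (LIFT_q n) :=
  (IsOpenQuotientMap.piMap fun _ => QuotientAddGroup.isOpenQuotientMap_mk).isQuotientMap

theorem LIFT_q_apply (n : ℕ) (x : Fin n → ℝ) :
    LIFT_q n x = fun i => (x i : UnitAddCircle) := rfl

/-- the translates of the support are locally finite -/
theorem LIFT_locFin (n : ℕ) (F : (Fin n → ℝ) → ℂ) (hc : HasCompactSupport F) :
    LocallyFinite fun z : Fin n → ℤ =>
      Function.support fun x : Fin n → ℝ => F (fun i => x i - z i) := by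
  classical
  obtain ⟨R, hR⟩ := hc.isBounded.exists_norm_le
  intro x₀
  refine ⟨Metric.ball x₀ 1, Metric.ball_mem_nhds _ one_pos, ?_⟩
  set N : ℤ := ⌈‖x₀‖ + 1 + R⌉ with hN
  refine (Set.Finite.subset (Finset.finite_toSet
    (Fintype.piFinset fun _ : Fin n => Finset.Icc (-N) N)) ?_)
  rintro z ⟨x, hx, hxb⟩
  rw [Function.mem_support] at hx
  have h1 : (fun i => x i - (z i : ℝ)) ∈ tsupport F := subset_tsupport _ hx
  have h2 := hR _ h1
  have h3 : ‖x‖ ≤ ‖x₀‖ + 1 := by
    have h4 : dist x x₀ < 1 := hxb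
    rw [dist_eq_norm] at h4
    have h5 : ‖x‖ ≤ ‖x₀‖ + ‖x - x₀‖ := norm_le_insert' x x₀
    linarith
  rw [Finset.mem_coe, Fintype.mem_piFinset]
  intro i
  have h6 : |x i - (z i : ℝ)| ≤ R := by
    have := norm_le_pi_norm (fun i => x i - (z i : ℝ)) i
    rw [Real.norm_eq_abs] at this
    exact this.trans h2
  have h7 : |x i| ≤ ‖x₀‖ + 1 := by
    have := norm_le_pi_norm x i
    rw [Real.norm_eq_abs] at this
    exact this.trans h3
  rw [abs_le] at h6 h7
  have h8 : ‖x₀‖ + 1 + R ≤ (N : ℝ) := Int.le_ceil _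
  rw [Finset.mem_Icc]
  constructor
  · have : ((-N : ℤ) : ℝ) ≤ (z i : ℝ) := by
      push_cast
      linarith [h6.1, h6.2, h7.1, h7.2]
    exact_mod_cast this
  · have : (z i : ℝ) ≤ (N : ℝ) := by
      linarith [h6.1, h6.2, h7.1, h7.2]
    exact_mod_cast this

/-- the periodization is continuous -/
theorem LIFT_cont (n : ℕ) (F : (Fin n → ℝ) → ℂ) (hF : Continuous F) (hc : HasCompactSupport F) :
    Continuous fun x : Fin n → ℝ => ∑' z : Fin n → ℤ, F (fun i => x i - z i) := by
  have hl := LIFT_locFin n F hc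
  have h1 : (fun x : Fin n → ℝ => ∑' z : Fin n → ℤ, F (fun i => x i - z i)) =
      fun x => ∑ᶠ z : Fin n → ℤ, F (fun i => x i - z i) := by
    funext x
    refine tsum_eq_finsum ?_
    exact hl.point_finite x
  rw [h1]
  refine continuous_finsum (fun z => ?_) hl
  exact hF.comp (continuous_pi fun i => (continuous_apply i).sub continuous_const)

theorem LIFT_per (n : ℕ) (F : (Fin n → ℝ) → ℂ) (x : Fin n → ℝ) (w : Fin n → ℤ) :
    ∑' z : Fin n → ℤ, F (fun i => x i + w i - z i) =
      ∑' z : Fin n → ℤ, F (fun i => x i - z i) := by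
  rw [← (Equiv.addRight w).tsum_eq fun z : Fin n → ℤ => F (fun i => x i + w i - z i)]
  refine tsum_congr fun z => ?_
  congr 1
  funext i
  simp only [Equiv.coe_addRight, Pi.add_apply]
  push_cast
  ring

/-- `LIFT` -/
theorem LIFT_holds : LIFT := by
  intro n F hF hc
  set g : C(Fin n → ℝ, ℂ) := ⟨_, LIFT_cont n F hF hc⟩ with hg
  have hfac : Function.FactorsThrough g (LIFT_q n) := by
    intro x y hxy
    have h1 : ∀ i, ∃ m : ℤ, x i = y i + m := by
      intro i
      have h2 : (x i : UnitAddCircle) = (y i : UnitAddCircle) := congrFun hxy i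
      have h3 : ((x i - y i : ℝ) : UnitAddCircle) = 0 := by
        rw [AddCircle.coe_sub, h2, sub_self]
      rw [AddCircle.coe_eq_zero_iff] at h3
      obtain ⟨m, hm⟩ := h3
      refine ⟨m, ?_⟩
      rw [zsmul_eq_mul, mul_one] at hm
      linarith
    choose w hw using h1
    have h4 : x = fun i => y i + (w i : ℝ) := funext hw
    show (∑' z : Fin n → ℤ, F (fun i => x i - z i)) = ∑' z : Fin n → ℤ, F (fun i => y i - z i)
    rw [h4]
    exact LIFT_per n F y w
  refine ⟨(LIFT_q_quot n).lift g hfac, fun x => ?_⟩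
  have h5 := (LIFT_q_quot n).lift_comp g hfac
  have h6 := congrArg (fun f : C(Fin n → ℝ, ℂ) => f x) h5
  exact h6

end Pool.Agent.H239R2.Flat
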