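import Pool.Agent.H239R2.Flat.Geo

set_option autoImplicit false

/-!
Affine images of the unit balls of `ℓ_p^n` lie between the bodies of `GA_of` / `GB_of`.
-/

namespace Pool.Agent.H239R2.Flat

open Finset

theorem LP_indep {n : ℕ} (b : Fin n → Fin n → ℝ) (hb : LinearIndependent ℝ b) (c : ℝ)
    (hc : c ≠ 0) : LinearIndependent ℝ (fun j => c • b j) := by
  rw [Fintype.linearIndependent_iff] at hb ⊢
  intro g hg i
  have h1 := hb (fun j => g j * c) (by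
    rw [← hg]
    exact Finset.sum_congr rfl fun j _ => (smul_smul _ _ _).symm) i
  exact (mul_eq_zero.mp h1).resolve_right hc

theorem LP_high {n : ℕ} (hn : 0 < n) (p : ℝ) (hp : 2 ≤ p) (l : Fin n → ℝ)
    (h : ∑ j, |l j| ^ p ≤ 1) : ∑ j, ((n : ℝ) ^ (1 / p) * l j) ^ 2 ≤ (1:ℝ) ^ 2 * n := by
  have hnR : (0:ℝ) < n := by exact_mod_cast hn
  have hp0 : 0 < p := by linarith
  have h1 := Real.rpow_sum_le_const_mul_sum_rpow_of_nonneg (s := (univ : Finset (Fin n)))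
    (f := fun j => l j ^ 2) (p := p / 2) (by linarith) (fun j _ => sq_nonneg _)
  have h2 : ∀ j, (l j ^ 2) ^ (p / 2) = |l j| ^ p := by
    intro j
    rw [← sq_abs, ← Real.rpow_natCast, ← Real.rpow_mul (abs_nonneg _)]
    congr 1
    push_cast
    ring
  simp only [h2] at h1
  rw [Finset.card_univ, Fintype.card_fin] at h1
  have hS0 : 0 ≤ ∑ j, l j ^ 2 := Finset.sum_nonneg fun j _ => sq_nonneg _
  have h3 : (∑ j, l j ^ 2) ^ (p / 2) ≤ (n : ℝ) ^ (p / 2 - 1) := by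
    refine h1.trans ?_
    exact mul_le_of_le_one_right (Real.rpow_nonneg hnR.le _) h
  have h4 : ∑ j, ((n : ℝ) ^ (1 / p) * l j) ^ 2 = (n : ℝ) ^ (2 / p) * ∑ j, l j ^ 2 := by
    rw [Finset.mul_sum]
    refine Finset.sum_congr rfl fun j _ => ?_
    rw [mul_pow, ← Real.rpow_natCast ((n : ℝ) ^ (1 / p)) 2, ← Real.rpow_mul hnR.le]
    congr 2
    push_cast
    ring
  rw [h4, one_pow, one_mul]
  have h5 : 0 < p / 2 := by linarith
  refine (Real.rpow_le_rpow_iff (mul_nonneg (Real.rpow_nonneg hnR.le _) hS0) hnR.le h5).mp ?_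
  rw [Real.mul_rpow (Real.rpow_nonneg hnR.le _) hS0, ← Real.rpow_mul hnR.le]
  have h6 : 2 / p * (p / 2) = 1 := by field_simp
  rw [h6]
  calc (n : ℝ) ^ (1:ℝ) * (∑ j, l j ^ 2) ^ (p / 2) ≤ (n : ℝ) ^ (1:ℝ) * (n : ℝ) ^ (p / 2 - 1) :=
        mul_le_mul_of_nonneg_left h3 (Real.rpow_nonneg hnR.le _)
    _ = (n : ℝ) ^ (p / 2) := by
        rw [← Real.rpow_add hnR]
        congr 1
        ring

theorem LP_cube {n : ℕ} (hn : 0 < n) (p : ℝ) (hp : 0 < p) (l : Fin n → ℝ)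
    (h : ∀ j, |l j| ≤ 1) : ∑ j, |(n : ℝ) ^ (-(1 / p)) * l j| ^ p ≤ 1 := by
  have hnR : (0:ℝ) < n := by exact_mod_cast hn
  have h1 : ∀ j, |(n : ℝ) ^ (-(1 / p)) * l j| ^ p ≤ (n : ℝ)⁻¹ := by
    intro j
    rw [abs_mul, abs_of_pos (Real.rpow_pos_of_pos hnR _),
      Real.mul_rpow (Real.rpow_nonneg hnR.le _) (abs_nonneg _), ← Real.rpow_mul hnR.le]
    have e : -(1 / p) * p = -1 := by field_simp
    rw [e, Real.rpow_neg_one]
    refine mul_le_of_le_one_right (inv_nonneg.mpr hnR.le) ?_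
    exact Real.rpow_le_one (abs_nonneg _) (h j) hp.le
  refine (Finset.sum_le_sum fun j _ => h1 j).trans ?_
  rw [Finset.sum_const, Finset.card_univ, Fintype.card_fin, nsmul_eq_mul,
    mul_inv_cancel₀ hnR.ne']

/-- The sum of absolute values on the unit ball of `ℓ_p^n`. -/
theorem LP_low1 {n : ℕ} (hn : 0 < n) (p : ℝ) (hp : 1 ≤ p) (l : Fin n → ℝ)
    (h : ∑ j, |l j| ^ p ≤ 1) : ∑ j, |(n : ℝ) ^ (-((p - 1) / p)) * l j| ≤ 1 := by
  have hnR : (0:ℝ) < n := by exact_mod_cast hn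
  have hp0 : 0 < p := by linarith
  have h1 := Real.rpow_sum_le_const_mul_sum_rpow (s := (univ : Finset (Fin n)))
    (f := l) (p := p) hp
  rw [Finset.card_univ, Fintype.card_fin] at h1
  have hS0 : 0 ≤ ∑ j, |l j| := Finset.sum_nonneg fun j _ => abs_nonneg _
  have h3 : (∑ j, |l j|) ^ p ≤ (n : ℝ) ^ (p - 1) :=
    h1.trans (mul_le_of_le_one_right (Real.rpow_nonneg hnR.le _) h)
  have h4 : ∑ j, |(n : ℝ) ^ (-((p - 1) / p)) * l j| = (n : ℝ) ^ (-((p - 1) / p)) * ∑ j, |l j| := by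
    rw [Finset.mul_sum]
    refine Finset.sum_congr rfl fun j _ => ?_
    rw [abs_mul, abs_of_pos (Real.rpow_pos_of_pos hnR _)]
  rw [h4]
  refine (Real.rpow_le_rpow_iff (mul_nonneg (Real.rpow_nonneg hnR.le _) hS0) zero_le_one hp0).mp ?_
  rw [Real.mul_rpow (Real.rpow_nonneg hnR.le _) hS0, ← Real.rpow_mul hnR.le, Real.one_rpow]
  have h6 : -((p - 1) / p) * p = -(p - 1) := by field_simp
  rw [h6]
  calc (n : ℝ) ^ (-(p - 1)) * (∑ j, |l j|) ^ p ≤ (n : ℝ) ^ (-(p - 1)) * (n : ℝ) ^ (p - 1) :=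
        mul_le_mul_of_nonneg_left h3 (Real.rpow_nonneg hnR.le _)
    _ = 1 := by
        rw [← Real.rpow_add hnR, neg_add_cancel, Real.rpow_zero]

/-- The inscribed ellipsoid of the unit ball of `ℓ_p^n`, `p ≤ 2`. -/
theorem LP_low2 {n : ℕ} (hn : 0 < n) (p : ℝ) (hp : 1 ≤ p) (hp2 : p ≤ 2) (l : Fin n → ℝ)
    (h : (n : ℝ) * ∑ j, l j ^ 2 ≤ 1) : ∑ j, |(n : ℝ) ^ ((p - 1) / p) * l j| ^ p ≤ 1 := by
  have hnR : (0:ℝ) < n := by exact_mod_cast hn
  have hp0 : 0 < p := by linarith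
  have h2p : 0 < 2 / p := by positivity
  have h1 := Real.rpow_sum_le_const_mul_sum_rpow_of_nonneg (s := (univ : Finset (Fin n)))
    (f := fun j => |l j| ^ p) (p := 2 / p) (by rw [le_div_iff₀ hp0]; linarith)
    (fun j _ => Real.rpow_nonneg (abs_nonneg _) _)
  have h2 : ∀ j, (|l j| ^ p) ^ (2 / p) = l j ^ 2 := by
    intro j
    rw [← Real.rpow_mul (abs_nonneg _)]
    have e : p * (2 / p) = ((2 : ℕ) : ℝ) := by
      push_cast
      field_simp
    rw [e, Real.rpow_natCast, sq_abs]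
  simp only [h2] at h1
  rw [Finset.card_univ, Fintype.card_fin] at h1
  set S : ℝ := ∑ j, |l j| ^ p with hS
  have hS0 : 0 ≤ S := Finset.sum_nonneg fun j _ => Real.rpow_nonneg (abs_nonneg _) _
  have h3 : S ^ (2 / p) ≤ (n : ℝ) ^ (2 / p - 2) := by
    refine h1.trans ?_
    have h5 : ∑ j, l j ^ 2 ≤ (n : ℝ) ^ (-1 : ℝ) := by
      rw [Real.rpow_neg_one, ← one_div, le_div_iff₀ hnR]
      linarith
    refine (mul_le_mul_of_nonneg_left h5 (Real.rpow_nonneg hnR.le _)).trans (le_of_eq ?_)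
    rw [← Real.rpow_add hnR]
    congr 1
    ring
  have h4 : ∑ j, |(n : ℝ) ^ ((p - 1) / p) * l j| ^ p = (n : ℝ) ^ (p - 1) * S := by
    rw [hS, Finset.mul_sum]
    refine Finset.sum_congr rfl fun j _ => ?_
    rw [abs_mul, abs_of_pos (Real.rpow_pos_of_pos hnR _),
      Real.mul_rpow (Real.rpow_nonneg hnR.le _) (abs_nonneg _), ← Real.rpow_mul hnR.le]
    have e : (p - 1) / p * p = p - 1 := by field_simp
    rw [e]
  rw [h4]
  refine (Real.rpow_le_rpow_iff (mul_nonneg (Real.rpow_nonneg hnR.le _) hS0) zero_le_one h2p).mp ?_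
  rw [Real.mul_rpow (Real.rpow_nonneg hnR.le _) hS0, ← Real.rpow_mul hnR.le, Real.one_rpow]
  calc (n : ℝ) ^ ((p - 1) * (2 / p)) * S ^ (2 / p)
      ≤ (n : ℝ) ^ ((p - 1) * (2 / p)) * (n : ℝ) ^ (2 / p - 2) :=
        mul_le_mul_of_nonneg_left h3 (Real.rpow_nonneg hnR.le _)
    _ = 1 := by
        rw [← Real.rpow_add hnR]
        have e : (p - 1) * (2 / p) + (2 / p - 2) = 0 := by
          field_simp
          ring
        rw [e, Real.rpow_zero]

end Pool.Agent.H239R2.Flat
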