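import Pool.Agent.H239R2.Flat.Defs

/-!
Task NUM: the final numerical sum.
-/

set_option autoImplicit false

namespace Pool.Agent.H239R2.Flat

open Finset MeasureTheory Matrix

/-- the summand -/
noncomputable def num_g (n k : ℕ) : ℝ :=
  if k = 0 then 0 else (5 : ℝ) ^ k / (1 + (8 * (n : ℝ) / k) ^ 2) ^ k

theorem num_kk (k : ℕ) : (k : ℝ) ^ k ≤ 3 ^ k * (k.factorial : ℝ) := by
  have h1 := Real.pow_div_factorial_le_exp (k : ℝ) (Nat.cast_nonneg k) k
  have hf : (0 : ℝ) < (k.factorial : ℝ) := by exact_mod_cast Nat.factorial_pos k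
  rw [div_le_iff₀ hf] at h1
  have h2 : Real.exp (k : ℝ) = (Real.exp 1) ^ k := by
    rw [← Real.exp_nat_mul, mul_one]
  have h3 : Real.exp 1 ≤ 3 := by
    have := Real.exp_one_lt_d9
    linarith
  have h4 : (Real.exp 1) ^ k ≤ 3 ^ k := pow_le_pow_left₀ (Real.exp_pos 1).le h3 k
  rw [h2] at h1
  exact h1.trans (mul_le_mul_of_nonneg_right h4 hf.le)

theorem num_choose (n k : ℕ) (hk : 0 < k) :
    ((n.choose k : ℕ) : ℝ) ≤ (3 * (n : ℝ) / k) ^ k := by
  have h1 : ((n.choose k : ℕ) : ℝ) ≤ (n : ℝ) ^ k / (k.factorial : ℝ) :=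
    Nat.choose_le_pow_div k n
  have hf : (0 : ℝ) < (k.factorial : ℝ) := by exact_mod_cast Nat.factorial_pos k
  have hk' : (0 : ℝ) < (k : ℝ) := by exact_mod_cast hk
  have hkk : (0 : ℝ) < (k : ℝ) ^ k := pow_pos hk' k
  refine h1.trans ?_
  rw [div_pow, mul_pow, div_le_div_iff₀ hf hkk]
  have h2 := num_kk k
  have h3 : (0 : ℝ) ≤ (n : ℝ) ^ k := by positivity
  calc (n : ℝ) ^ k * (k : ℝ) ^ k ≤ (n : ℝ) ^ k * (3 ^ k * (k.factorial : ℝ)) :=
        mul_le_mul_of_nonneg_left h2 h3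
    _ = 3 ^ k * (n : ℝ) ^ k * (k.factorial : ℝ) := by ring

theorem num_term (n k : ℕ) (hk : 0 < k) (hkn : k ≤ n) :
    ((n.choose k : ℕ) : ℝ) * num_g n k ≤ (15 / 64 : ℝ) ^ k := by
  have hk' : (0 : ℝ) < (k : ℝ) := by exact_mod_cast hk
  have hn' : (0 : ℝ) < (n : ℝ) := by exact_mod_cast (lt_of_lt_of_le hk hkn)
  have hkn' : (k : ℝ) ≤ (n : ℝ) := by exact_mod_cast hkn
  unfold num_g
  rw [if_neg hk.ne', ← div_pow]
  have h1 := num_choose n k hk
  have hpos : (0 : ℝ) < 1 + (8 * (n : ℝ) / k) ^ 2 := by positivity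
  have h2 : (0 : ℝ) ≤ (5 / (1 + (8 * (n : ℝ) / k) ^ 2)) ^ k := by positivity
  refine (mul_le_mul_of_nonneg_right h1 h2).trans ?_
  rw [← mul_pow]
  refine pow_le_pow_left₀ (by positivity) ?_ k
  rw [mul_div_assoc', div_le_iff₀ hpos]
  obtain ⟨t, ht⟩ : ∃ t : ℝ, t = (n : ℝ) / k := ⟨_, rfl⟩
  have ht1 : 1 ≤ t := by
    rw [ht, le_div_iff₀ hk', one_mul]
    exact hkn'
  have e1 : 3 * (n : ℝ) / k = 3 * t := by rw [ht]; ring
  have e2 : 8 * (n : ℝ) / k = 8 * t := by rw [ht]; ring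
  rw [e1, e2]
  nlinarith

theorem num_geom (m : ℕ) :
    ∑ k ∈ range (m + 1), (if k = 0 then (0 : ℝ) else (15 / 64 : ℝ) ^ k) =
      15 / 49 * (1 - (15 / 64 : ℝ) ^ m) := by
  induction m with
  | zero => simp
  | succ m ih =>
    rw [sum_range_succ, ih, if_neg (Nat.succ_ne_zero m), pow_succ]
    ring

theorem NUM_holds : NUM := by
  intro n hn
  have h1 : ∑ K ∈ (univ : Finset (Finset (Fin n))).filter (fun K => K.Nonempty),
      (5 : ℝ) ^ K.card / (1 + (8 * (n : ℝ) / K.card) ^ 2) ^ K.card =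
      ∑ K ∈ (univ : Finset (Fin n)).powerset, num_g n K.card := by
    rw [sum_filter, powerset_univ]
    refine sum_congr rfl (fun K _ => ?_)
    unfold num_g
    by_cases hK : K.Nonempty
    · rw [if_pos hK, if_neg (Finset.card_pos.2 hK).ne']
    · rw [if_neg hK, if_pos]
      rw [Finset.not_nonempty_iff_eq_empty.1 hK]
      exact card_empty
  rw [h1, sum_powerset_apply_card, card_univ, Fintype.card_fin]
  have h2 : ∑ m ∈ range (n + 1), n.choose m • num_g n m ≤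
      ∑ k ∈ range (n + 1), (if k = 0 then (0 : ℝ) else (15 / 64 : ℝ) ^ k) := by
    refine sum_le_sum (fun k hk => ?_)
    by_cases h0 : k = 0
    · rw [if_pos h0]
      unfold num_g
      rw [if_pos h0, smul_zero]
    · rw [if_neg h0, nsmul_eq_mul]
      exact num_term n k (Nat.pos_of_ne_zero h0) (Nat.lt_succ_iff.1 (mem_range.1 hk))
  refine h2.trans ?_
  rw [num_geom]
  have h3 : (0 : ℝ) ≤ (15 / 64 : ℝ) ^ n := by positivity
  linarith

end Pool.Agent.H239R2.Flat
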