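import Pool.Agent.H239R2.Flat.Defs

set_option autoImplicit false

/-! Poisson summation on the torus. -/

namespace Pool.Agent.H239R2.Flat

open Finset MeasureTheory Matrix

theorem POIS_mFourier {n : ℕ} (y : Fin n → ℤ) (x : Fin n → ℝ) :
    UnitAddTorus.mFourier y (fun i => (x i : UnitAddCircle)) = ch (∑ i, (y i : ℝ) * x i) := by
  have h1 : UnitAddTorus.mFourier y (fun i => (x i : UnitAddCircle)) =
      ∏ i, fourier (y i) (x i : UnitAddCircle) := rfl
  rw [h1]
  simp only [fourier_coe_apply]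
  rw [← Complex.exp_sum, ch]
  congr 1
  push_cast
  rw [Finset.mul_sum]
  refine Finset.sum_congr rfl fun i _ => ?_
  ring

theorem POIS_of (h1 : LIFT) (h2 : COEF) : POIS := by
  intro n F hF hc hs x
  obtain ⟨Φ, hΦ⟩ := h1 n F hF hc
  have hco := h2 n F hF hc Φ hΦ
  have hsum : Summable (UnitAddTorus.mFourierCoeff Φ) := by
    have h3 : UnitAddTorus.mFourierCoeff Φ = fun y : Fin n → ℤ =>
        ∫ x : Fin n → ℝ, F x * ch (-(∑ i, (y i : ℝ) * x i)) := funext hco
    rw [h3]
    exact hs.of_norm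
  have h3 := UnitAddTorus.hasSum_mFourier_series_apply_of_summable hsum
    (fun i => (x i : UnitAddCircle))
  rw [hΦ] at h3
  refine h3.congr_fun ?_ |> id
  intro y
  rw [hco, POIS_mFourier, smul_eq_mul]

end Pool.Agent.H239R2.Flat
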