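import Pool.Agent.H239R2.Flat.Defs

set_option autoImplicit false

/-!
`SEL`: selection of the large coordinates (task of helper239's project FLAT, done by helper475).
-/

namespace Pool.Agent.H239R2.Flat

open Finset MeasureTheory Matrix

lemma SEL_log (x σ : ℝ) (hx : 3 ≤ x) (hxs : x ≤ σ) :
    x / σ * Real.log (1 + σ ^ 2) ≤ Real.log (1 + x ^ 2) := by
  have hx0 : 0 < x := by linarith
  have hs0 : 0 < σ := by linarith
  have h2 : 2 ≤ Real.log (1 + x ^ 2) := by
    rw [Real.le_log_iff_exp_le (by positivity)]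
    have h1 := Real.exp_one_lt_d9
    have h0 := Real.exp_pos 1
    have h3 : Real.exp 2 = Real.exp 1 ^ 2 := by
      rw [← Real.exp_nat_mul]; norm_num
    rw [h3]
    nlinarith
  have h3 : Real.log (1 + σ ^ 2) ≤ Real.log (1 + x ^ 2) + 2 * (σ / x - 1) := by
    have h4 : 1 + σ ^ 2 ≤ (1 + x ^ 2) * (σ / x) ^ 2 := by
      have h5 : (1 + x ^ 2) * (σ / x) ^ 2 = (σ / x) ^ 2 + σ ^ 2 := by
        field_simp
      rw [h5]
      have h6 : 1 ≤ σ / x := by rw [one_le_div hx0]; exact hxs
      nlinarith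
    calc Real.log (1 + σ ^ 2) ≤ Real.log ((1 + x ^ 2) * (σ / x) ^ 2) :=
          Real.log_le_log (by positivity) h4
      _ = Real.log (1 + x ^ 2) + 2 * Real.log (σ / x) := by
          rw [Real.log_mul (by positivity) (by positivity), Real.log_pow]; norm_num
      _ ≤ _ := by
          have := Real.log_le_sub_one_of_pos (show 0 < σ / x by positivity)
          linarith
  have h5 : 0 < x / σ := by positivity
  have h6 : x / σ ≤ 1 := by rw [div_le_one hs0]; exact hxs
  have h7 : x / σ * (σ / x) = 1 := by field_simp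
  have h8 := mul_le_mul_of_nonneg_left h3 h5.le
  have h9 := mul_le_mul_of_nonneg_left h2 (sub_nonneg.mpr h6)
  nlinarith

theorem SEL_holds : SEL := by
  intro n v hn hsum
  classical
  have hn0 : (0 : ℝ) < n := by exact_mod_cast hn
  set Top : Finset (Finset (Fin n)) := univ.filter (fun K =>
    (∀ i, i ∉ K → ∀ j ∈ K, |v i| ≤ |v j|) ∧ ∑ j ∈ Kᶜ, |v j| ≤ 16 * (n : ℝ)) with hTop
  have hmem : ∀ K, K ∈ Top ↔ (∀ i, i ∉ K → ∀ j ∈ K, |v i| ≤ |v j|) ∧
      ∑ j ∈ Kᶜ, |v j| ≤ 16 * (n : ℝ) := fun K => by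
    rw [hTop, Finset.mem_filter]; simp
  obtain ⟨K, hK, hmin⟩ := Finset.exists_min_image Top Finset.card
    ⟨univ, (hmem _).2 ⟨fun i hi => (hi (mem_univ i)).elim, by simp⟩⟩
  obtain ⟨hK1, hK2⟩ := (hmem K).1 hK
  have hne : K.Nonempty := by
    rw [Finset.nonempty_iff_ne_empty]
    rintro rfl
    rw [Finset.compl_empty] at hK2
    linarith
  obtain ⟨j0, hj0, hj0min⟩ := Finset.exists_min_image K (fun j => |v j|) hne
  have hcard : 0 < (K.card : ℝ) := by exact_mod_cast hne.card_pos
  have hcardn : (K.card : ℝ) ≤ n := by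
    have := Finset.card_le_univ K
    simp only [Fintype.card_fin] at this
    exact_mod_cast this
  -- the complement of `K.erase j0`
  have hT : 16 * (n : ℝ) < ∑ j ∈ (K.erase j0)ᶜ, |v j| := by
    by_contra hcon
    push Not at hcon
    have hmem' : K.erase j0 ∈ Top := by
      rw [hmem]
      refine ⟨fun i hi j hj => ?_, hcon⟩
      rw [Finset.mem_erase] at hj hi
      by_cases hij : i = j0
      · subst hij; exact hj0min j hj.2
      · exact hK1 i (fun h => hi ⟨hij, h⟩) j hj.2
    have h1 := hmin _ hmem'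
    have h2 := Finset.card_erase_lt_of_mem hj0
    omega
  have hTle : ∀ i ∈ (K.erase j0)ᶜ, |v i| ≤ |v j0| := by
    intro i hi
    rw [Finset.mem_compl, Finset.mem_erase] at hi
    by_cases hij : i = j0
    · rw [hij]
    · exact hK1 i (fun h => hi ⟨hij, h⟩) j0 hj0
  set σ : ℝ := 8 * (n : ℝ) / K.card with hσ
  have hσ8 : 8 ≤ σ := by
    rw [hσ, le_div_iff₀ hcard]; linarith
  have hge1 : ∀ j, 1 ≤ 1 + v j ^ 2 := fun j => by nlinarith [sq_nonneg (v j)]
  have hsub : ∀ A : Finset (Fin n), ∏ j ∈ A, (1 + v j ^ 2) ≤ ∏ j, (1 + v j ^ 2) := by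
    intro A
    rw [← Finset.prod_mul_prod_compl A (fun j => 1 + v j ^ 2)]
    refine le_mul_of_one_le_right (Finset.prod_nonneg fun i _ => by linarith [hge1 i]) ?_
    exact Finset.one_le_prod fun i _ => hge1 i
  refine ⟨K, hne, hK2, ?_⟩
  rcases le_or_gt σ (|v j0|) with hs | hs
  · refine le_trans ?_ (hsub K)
    calc (1 + σ ^ 2) ^ K.card = ∏ _j ∈ K, (1 + σ ^ 2) := by rw [Finset.prod_const]
      _ ≤ ∏ j ∈ K, (1 + v j ^ 2) := by
          apply Finset.prod_le_prod
          · intro i _; positivity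
          · intro i hi
            have h1 : σ ≤ |v i| := le_trans hs (hj0min i hi)
            have h2 : σ ^ 2 ≤ |v i| ^ 2 := by nlinarith [abs_nonneg (v i)]
            rw [sq_abs] at h2
            linarith
  · refine le_trans ?_ (hsub (K.erase j0)ᶜ)
    set T := (K.erase j0)ᶜ with hTdef
    have hσ0 : 0 < σ := by linarith
    have hL : 0 ≤ Real.log (1 + σ ^ 2) := Real.log_nonneg (by nlinarith [sq_nonneg σ])
    set η : ℝ := Real.log (1 + σ ^ 2) / σ with hη
    have hη0 : 0 ≤ η := div_nonneg hL hσ0.le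
    have hpt : ∀ i ∈ T, η * (|v i| - 3) ≤ Real.log (1 + v i ^ 2) := by
      intro i hi
      have h1 : |v i| ≤ σ := le_trans (hTle i hi) hs.le
      rcases le_or_gt 3 (|v i|) with h3 | h3
      · have h4 := SEL_log _ _ h3 h1
        rw [sq_abs] at h4
        have h5 : |v i| / σ * Real.log (1 + σ ^ 2) = η * |v i| := by
          rw [hη]; field_simp
        rw [h5] at h4
        nlinarith
      · have h4 : 0 ≤ Real.log (1 + v i ^ 2) := Real.log_nonneg (hge1 i)
        nlinarith
    have hTcard : (T.card : ℝ) ≤ n := by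
      have := Finset.card_le_univ T
      simp only [Fintype.card_fin] at this
      exact_mod_cast this
    have hsumT : K.card * Real.log (1 + σ ^ 2) ≤ ∑ i ∈ T, Real.log (1 + v i ^ 2) := by
      have h1 : ∑ i ∈ T, η * (|v i| - 3) = η * (∑ i ∈ T, |v i| - 3 * T.card) := by
        rw [← Finset.mul_sum, Finset.sum_sub_distrib, Finset.sum_const, nsmul_eq_mul]
        ring
      have h2 : ∑ i ∈ T, η * (|v i| - 3) ≤ ∑ i ∈ T, Real.log (1 + v i ^ 2) :=
        Finset.sum_le_sum hpt
      have h3 : (K.card : ℝ) * Real.log (1 + σ ^ 2) = η * (8 * n) := by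
        rw [hη, hσ]
        field_simp
      rw [h3]
      rw [h1] at h2
      refine le_trans ?_ h2
      apply mul_le_mul_of_nonneg_left _ hη0
      linarith
    have h1 : Real.log ((1 + σ ^ 2) ^ K.card) ≤ Real.log (∏ i ∈ T, (1 + v i ^ 2)) := by
      rw [Real.log_pow, Real.log_prod (fun i _ => by have := hge1 i; positivity)]
      exact hsumT
    exact (Real.log_le_log_iff (by positivity) (Finset.prod_pos fun i _ => by
      have := hge1 i; linarith)).1 h1

end Pool.Agent.H239R2.Flat
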