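import Pool.Agent.H239R2.Flat.Defs

/-! `SINC`: bound for the Fourier transform of the kernel (helper509). -/

set_option autoImplicit false

namespace Pool.Agent.H239R2.Flat

open Set

lemma SINC_mono (f f' : ℝ → ℝ) (hf : ∀ x, HasDerivAt f (f' x) x) (h0 : f 0 = 0)
    (h : ∀ x, 0 ≤ x → 0 ≤ f' x) : ∀ x, 0 ≤ x → 0 ≤ f x := by
  have hm : MonotoneOn f (Ici 0) := by
    apply monotoneOn_of_deriv_nonneg (convex_Ici 0)
    · exact fun x _ => (hf x).continuousAt.continuousWithinAt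
    · exact fun x _ => (hf x).differentiableAt.differentiableWithinAt
    · intro x hx
      rw [interior_Ici] at hx
      rw [(hf x).deriv]
      exact h x (le_of_lt hx)
  intro x hx
  have := hm (Set.mem_Ici.2 (le_refl (0 : ℝ))) (Set.mem_Ici.2 hx) hx
  rwa [h0] at this

lemma SINC_s1 : ∀ x : ℝ, 0 ≤ x → 0 ≤ Real.sin x - (x - x ^ 3 / 6) := by
  apply SINC_mono _ (fun x => Real.cos x - (1 - x ^ 2 / 2))
  · intro x
    have h1 := (Real.hasDerivAt_sin x).sub ((hasDerivAt_id x).sub ((hasDerivAt_pow 3 x).div_const 6))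
    refine h1.congr_deriv ?_
    norm_num
    ring
  · simp
  · intro x _
    have := Real.one_sub_sq_div_two_le_cos (x := x)
    linarith

lemma SINC_s2 : ∀ x : ℝ, 0 ≤ x → 0 ≤ (1 - x ^ 2 / 2 + x ^ 4 / 24) - Real.cos x := by
  apply SINC_mono _ (fun x => Real.sin x - (x - x ^ 3 / 6))
  · intro x
    have h1 := ((((hasDerivAt_pow 2 x).div_const 2).const_sub 1).add
      ((hasDerivAt_pow 4 x).div_const 24)).sub (Real.hasDerivAt_cos x)
    refine h1.congr_deriv ?_
    norm_num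
    ring
  · simp
  · exact SINC_s1

lemma SINC_s3 : ∀ x : ℝ, 0 ≤ x → 0 ≤ (x - x ^ 3 / 6 + x ^ 5 / 120) - Real.sin x := by
  apply SINC_mono _ (fun x => (1 - x ^ 2 / 2 + x ^ 4 / 24) - Real.cos x)
  · intro x
    have h1 := (((hasDerivAt_id x).sub ((hasDerivAt_pow 3 x).div_const 6)).add
      ((hasDerivAt_pow 5 x).div_const 120)).sub (Real.hasDerivAt_sin x)
    refine h1.congr_deriv ?_
    norm_num
    ring
  · simp
  · exact SINC_s2

lemma SINC_sin_nonneg (u : ℝ) (hu : 0 ≤ u) : Real.sin u ^ 2 * (1 + u ^ 2 / 3) ≤ u ^ 2 := by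
  by_cases h : 3 / 2 ≤ u ^ 2
  · have h1 := Real.sin_sq_le_one u
    nlinarith [sq_nonneg u]
  · push Not at h
    have h2 : u ≤ 3 := by nlinarith
    have h3 : 0 ≤ Real.sin u := Real.sin_nonneg_of_nonneg_of_le_pi hu (by linarith [Real.pi_gt_three])
    have h4 := SINC_s3 u hu
    have h5 : Real.sin u ^ 2 ≤ (u - u ^ 3 / 6 + u ^ 5 / 120) ^ 2 := by
      apply pow_le_pow_left₀ h3
      linarith
    have h6 : (u - u ^ 3 / 6 + u ^ 5 / 120) ^ 2 = u ^ 2 * (1 - u ^ 2 / 6 + (u ^ 2) ^ 2 / 120) ^ 2 := by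
      ring
    rw [h6] at h5
    set x := u ^ 2 with hx
    have hx0 : 0 ≤ x := sq_nonneg u
    have h7 : (1 - x / 6 + x ^ 2 / 120) ^ 2 * (1 + x / 3) ≤ 1 := by
      have h8 : (1 - x / 6 + x ^ 2 / 120) ^ 2 * (1 + x / 3) =
          1 - x ^ 2 * (1 / 15 - 13 / 1080 * x + 37 / 43200 * x ^ 2 - x ^ 3 / 43200) := by ring
      rw [h8]
      have h9 : 0 ≤ 1 / 15 - 13 / 1080 * x + 37 / 43200 * x ^ 2 - x ^ 3 / 43200 := by
        have h10 : x ^ 3 ≤ 27 / 8 := by
          have := pow_le_pow_left₀ hx0 h.le 3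
          linarith
        have h11 : 0 ≤ x ^ 2 := sq_nonneg x
        linarith
      have := mul_nonneg (sq_nonneg x) h9
      linarith
    calc Real.sin u ^ 2 * (1 + x / 3) ≤ (x * (1 - x / 6 + x ^ 2 / 120) ^ 2) * (1 + x / 3) := by
          apply mul_le_mul_of_nonneg_right h5
          linarith
      _ = x * ((1 - x / 6 + x ^ 2 / 120) ^ 2 * (1 + x / 3)) := by ring
      _ ≤ x * 1 := mul_le_mul_of_nonneg_left h7 hx0
      _ = x := mul_one x

lemma SINC_sin (u : ℝ) : Real.sin u ^ 2 * (1 + u ^ 2 / 3) ≤ u ^ 2 := by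
  rcases le_total 0 u with h | h
  · exact SINC_sin_nonneg u h
  · have := SINC_sin_nonneg (-u) (by linarith)
    rw [Real.sin_neg, neg_sq, neg_sq] at this
    exact this

lemma SINC_sinc (u : ℝ) : Real.sinc u ^ 2 * (1 + u ^ 2 / 3) ≤ 1 := by
  by_cases h : u = 0
  · subst h
    simp
  · rw [Real.sinc_of_ne_zero h, div_pow, div_mul_eq_mul_div, div_le_one (by positivity)]
    exact SINC_sin u

theorem SINC_holds : SINC := by
  constructor
  · unfold kh
    simp
  · intro t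
    unfold kh
    constructor
    · have : 0 ≤ Real.sinc (Real.pi * t / 2) ^ 4 := by
        have h := sq_nonneg (Real.sinc (Real.pi * t / 2) ^ 2)
        calc (0 : ℝ) ≤ (Real.sinc (Real.pi * t / 2) ^ 2) ^ 2 := h
          _ = _ := by ring
      linarith
    · apply mul_le_mul_of_nonneg_left _ (by norm_num)
      set s := Real.sinc (Real.pi * t / 2) with hs
      have h1 := SINC_sinc (Real.pi * t / 2)
      rw [← hs] at h1
      have hpi := Real.pi_gt_d4
      have h2 : (9 / 10 * t) ^ 2 ≤ (Real.pi * t / 2) ^ 2 / 3 := by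
        have h3 : (972 / 100 : ℝ) ≤ Real.pi ^ 2 := by nlinarith
        have h4 : (9 / 10 * t) ^ 2 = (972 / 100) * (t ^ 2 / 12) := by ring
        have h5 : (Real.pi * t / 2) ^ 2 / 3 = Real.pi ^ 2 * (t ^ 2 / 12) := by ring
        rw [h4, h5]
        apply mul_le_mul_of_nonneg_right h3
        positivity
      have h6 : s ^ 2 * (1 + (9 / 10 * t) ^ 2) ≤ 1 := by
        refine le_trans ?_ h1
        apply mul_le_mul_of_nonneg_left _ (sq_nonneg s)
        linarith
      have h7 : 0 < 1 + (9 / 10 * t) ^ 2 := by positivity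
      rw [le_div_iff₀ (by positivity)]
      have h8 : 0 ≤ s ^ 2 * (1 + (9 / 10 * t) ^ 2) := by positivity
      calc s ^ 4 * (1 + (9 / 10 * t) ^ 2) ^ 2 = (s ^ 2 * (1 + (9 / 10 * t) ^ 2)) ^ 2 := by ring
        _ ≤ 1 ^ 2 := pow_le_pow_left₀ h8 h6 2
        _ = 1 := one_pow 2

end Pool.Agent.H239R2.Flat
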