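import Pool.Agent.H239R2.Flat.Defs

/-! SUM1 (helper666): the sum over points with distinct integral parts. -/

set_option autoImplicit false

namespace Pool.Agent.H239R2.Flat

open Finset

/-- upper bound for `1/(1+s^2)` in terms of the integral part -/
noncomputable def SUM1w (m : ℤ) : ℝ :=
  if 0 ≤ m then 1 / (1 + (m : ℝ) ^ 2) else 1 / (1 + ((m : ℝ) + 1) ^ 2)

theorem SUM1w_nonneg (m : ℤ) : 0 ≤ SUM1w m := by
  unfold SUM1w
  split_ifs <;> positivity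

theorem SUM1_floor (s : ℝ) : 1 / (1 + s ^ 2) ≤ SUM1w ⌊s⌋ := by
  unfold SUM1w
  split_ifs with h
  · have h1 : (⌊s⌋ : ℝ) ≤ s := Int.floor_le s
    have h0 : (0 : ℝ) ≤ (⌊s⌋ : ℝ) := by exact_mod_cast h
    apply one_div_le_one_div_of_le (by positivity)
    nlinarith
  · have h1 : s < (⌊s⌋ : ℝ) + 1 := Int.lt_floor_add_one s
    have h0 : (⌊s⌋ : ℝ) + 1 ≤ 0 := by
      have : ⌊s⌋ + 1 ≤ 0 := by omega
      exact_mod_cast this
    apply one_div_le_one_div_of_le (by positivity)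
    nlinarith

theorem SUM1_step (N : ℕ) : ∑ m ∈ Icc (-((N + 1 : ℕ) : ℤ)) ((N + 1 : ℕ) : ℤ), SUM1w m =
    ∑ m ∈ Icc (-(N : ℤ)) (N : ℤ), SUM1w m + 1 / (1 + ((N : ℝ) + 1) ^ 2) + 1 / (1 + (N : ℝ) ^ 2) := by
  have e : Icc (-((N + 1 : ℕ) : ℤ)) ((N + 1 : ℕ) : ℤ) =
      insert ((N : ℤ) + 1) (insert (-((N : ℤ) + 1)) (Icc (-(N : ℤ)) (N : ℤ))) := by
    ext m
    simp only [mem_Icc, mem_insert]
    push_cast
    omega
  rw [e, sum_insert, sum_insert]
  · have h1 : SUM1w ((N : ℤ) + 1) = 1 / (1 + ((N : ℝ) + 1) ^ 2) := by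
      unfold SUM1w
      rw [if_pos (by omega)]
      push_cast
      rfl
    have h2 : SUM1w (-((N : ℤ) + 1)) = 1 / (1 + (N : ℝ) ^ 2) := by
      unfold SUM1w
      rw [if_neg (by omega)]
      push_cast
      congr 2
      ring
    rw [h1, h2]
    ring
  · simp only [mem_Icc]
    omega
  · simp only [mem_insert, mem_Icc]
    omega

theorem SUM1_bound1 (N : ℕ) :
    ∑ m ∈ Icc (-((N + 1 : ℕ) : ℤ)) ((N + 1 : ℕ) : ℤ), SUM1w m ≤ 5 - 2 / ((N : ℝ) + 1) := by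
  induction N with
  | zero =>
    rw [SUM1_step]
    have h0 : ∑ m ∈ Icc (-((0 : ℕ) : ℤ)) ((0 : ℕ) : ℤ), SUM1w m = 1 := by
      simp [SUM1w]
    rw [h0]
    norm_num
  | succ N ih =>
    rw [SUM1_step]
    push_cast
    have hx : (0 : ℝ) ≤ N := Nat.cast_nonneg N
    have h1 : 1 / (1 + ((N : ℝ) + 1 + 1) ^ 2) + 1 / (1 + ((N : ℝ) + 1) ^ 2) ≤
        2 / ((N : ℝ) + 1) - 2 / ((N : ℝ) + 1 + 1) := by
      have hx1 : (0 : ℝ) < (N : ℝ) + 1 := by linarith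
      have hx2 : (0 : ℝ) < (N : ℝ) + 1 + 1 := by linarith
      rw [div_add_div _ _ (by positivity) (by positivity), div_sub_div _ _ hx1.ne' hx2.ne',
        div_le_div_iff₀ (by positivity) (by positivity)]
      nlinarith [mul_nonneg hx hx, mul_nonneg (mul_nonneg hx hx) hx,
        mul_nonneg (mul_nonneg hx hx) (mul_nonneg hx hx)]
    push_cast at ih
    linarith

theorem SUM1_bound (N : ℕ) : ∑ m ∈ Icc (-(N : ℤ)) (N : ℤ), SUM1w m ≤ 5 := by
  cases N with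
  | zero =>
    have h0 : ∑ m ∈ Icc (-((0 : ℕ) : ℤ)) ((0 : ℕ) : ℤ), SUM1w m = 1 := by
      simp [SUM1w]
    rw [h0]
    norm_num
  | succ N =>
    refine (SUM1_bound1 N).trans ?_
    have : (0 : ℝ) ≤ 2 / ((N : ℝ) + 1) := by positivity
    linarith

theorem SUM1_holds : SUM1 := by
  classical
  intro Y J _ _ S v hinj
  set f : Y → J → ℤ := fun y j => ⌊v y j⌋ with hf
  obtain ⟨N, hN⟩ : ∃ N : ℕ, ∀ y ∈ S, ∀ j, |f y j| ≤ (N : ℤ) := by
    refine ⟨∑ y ∈ S, ∑ j, (f y j).natAbs, fun y hy j => ?_⟩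
    have h1 : (f y j).natAbs ≤ ∑ j, (f y j).natAbs :=
      single_le_sum (f := fun j => (f y j).natAbs) (fun _ _ => Nat.zero_le _) (mem_univ j)
    have h2 : ∑ j, (f y j).natAbs ≤ ∑ y ∈ S, ∑ j, (f y j).natAbs :=
      single_le_sum (f := fun y => ∑ j, (f y j).natAbs) (fun _ _ => Nat.zero_le _) hy
    have h3 : (f y j).natAbs ≤ ∑ y ∈ S, ∑ j, (f y j).natAbs := h1.trans h2
    rw [Int.abs_eq_natAbs]
    exact_mod_cast h3
  calc ∑ y ∈ S, ∏ j, (1 / (1 + v y j ^ 2))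
      ≤ ∑ y ∈ S, ∏ j, SUM1w (f y j) :=
        sum_le_sum fun y _ => prod_le_prod (fun j _ => by positivity) fun j _ => SUM1_floor _
    _ = ∑ m ∈ S.image f, ∏ j, SUM1w (m j) := by
        rw [sum_image]
        intro y hy y' hy' h
        exact hinj y hy y' hy' fun j => congrFun h j
    _ ≤ ∑ m ∈ Fintype.piFinset (fun _ : J => Icc (-(N : ℤ)) (N : ℤ)), ∏ j, SUM1w (m j) := by
        refine sum_le_sum_of_subset_of_nonneg ?_ fun m _ _ =>
          prod_nonneg fun j _ => SUM1w_nonneg _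
        intro m hm
        obtain ⟨y, hy, rfl⟩ := mem_image.1 hm
        rw [Fintype.mem_piFinset]
        intro j
        have := abs_le.1 (hN y hy j)
        exact mem_Icc.2 this
    _ = ∏ _j : J, ∑ m ∈ Icc (-(N : ℤ)) (N : ℤ), SUM1w m :=
        (prod_univ_sum (fun _ : J => Icc (-(N : ℤ)) (N : ℤ)) (fun _ m => SUM1w m)).symm
    _ = (∑ m ∈ Icc (-(N : ℤ)) (N : ℤ), SUM1w m) ^ Fintype.card J := by
        rw [prod_const, card_univ]
    _ ≤ 5 ^ Fintype.card J :=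
        pow_le_pow_left₀ (sum_nonneg fun m _ => SUM1w_nonneg m) (SUM1_bound N) _

end Pool.Agent.H239R2.Flat
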