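import Pool.Agent.H239R2.Flat.SEL
import Pool.Agent.H239R2.Flat.NUM
import Pool.Agent.H239R2.Flat.SUM1

set_option autoImplicit false

/-!
The Euclidean forms of `SEL`, `NUM`, `LS` (adapted from the files of helper475, helper155).
-/

namespace Pool.Agent.H239R2.Flat

open Finset MeasureTheory Matrix

theorem SEL2_log (x τ : ℝ) (hx : 0 ≤ x) (hxs : x ≤ τ) (hτ : 0 < τ) :
    x / τ * Real.log (1 + τ) ≤ Real.log (1 + x) := by
  have h1 : (1 + τ) ^ (x / τ) ≤ 1 + (x / τ) * τ :=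
    rpow_one_add_le_one_add_mul_self (by linarith) (by positivity)
      (by rw [div_le_one hτ]; exact hxs)
  rw [div_mul_cancel₀ _ hτ.ne'] at h1
  rw [← Real.log_rpow (by linarith)]
  exact Real.log_le_log (Real.rpow_pos_of_pos (by linarith) _) h1

theorem SEL2 (n : ℕ) (v : Fin n → ℝ) (hn : 0 < n) (hsum : 260 * (n : ℝ) ≤ ∑ j, v j ^ 2) :
    ∃ K : Finset (Fin n), K.Nonempty ∧ ∑ j ∈ Kᶜ, v j ^ 2 ≤ 64 * n ∧
      (1 + 64 * (n : ℝ) / K.card) ^ K.card ≤ ∏ j, (1 + v j ^ 2) := by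
  classical
  have hn0 : (0 : ℝ) < n := by exact_mod_cast hn
  set Top : Finset (Finset (Fin n)) := univ.filter (fun K =>
    (∀ i, i ∉ K → ∀ j ∈ K, |v i| ≤ |v j|) ∧ ∑ j ∈ Kᶜ, v j ^ 2 ≤ 64 * (n : ℝ)) with hTop
  have hmem : ∀ K, K ∈ Top ↔ (∀ i, i ∉ K → ∀ j ∈ K, |v i| ≤ |v j|) ∧
      ∑ j ∈ Kᶜ, v j ^ 2 ≤ 64 * (n : ℝ) := fun K => by
    rw [hTop, Finset.mem_filter]; simp
  obtain ⟨K, hK, hmin⟩ := Finset.exists_min_image Top Finset.card
    ⟨univ, (hmem _).2 ⟨fun i hi => (hi (mem_univ i)).elim, by simp⟩⟩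
  obtain ⟨hK1, hK2⟩ := (hmem K).1 hK
  have hne : K.Nonempty := by
    rw [Finset.nonempty_iff_ne_empty]
    rintro rfl
    rw [Finset.compl_empty] at hK2
    linarith
  obtain ⟨j0, hj0, hj0min⟩ := Finset.exists_min_image K (fun j => |v j|) hne
  have hcard : 0 < (K.card : ℝ) := by exact_mod_cast hne.card_pos
  have hT : 64 * (n : ℝ) < ∑ j ∈ (K.erase j0)ᶜ, v j ^ 2 := by
    by_contra hcon
    push Not at hcon
    have hmem' : K.erase j0 ∈ Top := by
      rw [hmem]
      refine ⟨fun i hi j hj => ?_, hcon⟩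
      rw [Finset.mem_erase] at hj hi
      by_cases hij : i = j0
      · subst hij; exact hj0min j hj.2
      · exact hK1 i (fun h => hi ⟨hij, h⟩) j hj.2
    have h1 := hmin _ hmem'
    have h2 := Finset.card_erase_lt_of_mem hj0
    omega
  have hTle : ∀ i ∈ (K.erase j0)ᶜ, |v i| ≤ |v j0| := by
    intro i hi
    rw [Finset.mem_compl, Finset.mem_erase] at hi
    by_cases hij : i = j0
    · rw [hij]
    · exact hK1 i (fun h => hi ⟨hij, h⟩) j0 hj0
  set τ : ℝ := 64 * (n : ℝ) / K.card with hτ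
  have hτ0 : 0 < τ := by rw [hτ]; positivity
  have hge1 : ∀ j, 1 ≤ 1 + v j ^ 2 := fun j => by nlinarith [sq_nonneg (v j)]
  have hsub : ∀ A : Finset (Fin n), ∏ j ∈ A, (1 + v j ^ 2) ≤ ∏ j, (1 + v j ^ 2) := by
    intro A
    rw [← Finset.prod_mul_prod_compl A (fun j => 1 + v j ^ 2)]
    refine le_mul_of_one_le_right (Finset.prod_nonneg fun i _ => by linarith [hge1 i]) ?_
    exact Finset.one_le_prod fun i _ => hge1 i
  refine ⟨K, hne, hK2, ?_⟩
  rcases le_or_gt τ (v j0 ^ 2) with hs | hs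
  · refine le_trans ?_ (hsub K)
    calc (1 + τ) ^ K.card = ∏ _j ∈ K, (1 + τ) := by rw [Finset.prod_const]
      _ ≤ ∏ j ∈ K, (1 + v j ^ 2) := by
          apply Finset.prod_le_prod
          · intro i _; positivity
          · intro i hi
            have h1 : v j0 ^ 2 ≤ v i ^ 2 := sq_le_sq.mpr (hj0min i hi)
            linarith
  · refine le_trans ?_ (hsub (K.erase j0)ᶜ)
    set T := (K.erase j0)ᶜ with hTdef
    have hL : 0 ≤ Real.log (1 + τ) := Real.log_nonneg (by linarith)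
    set η : ℝ := Real.log (1 + τ) / τ with hη
    have hη0 : 0 ≤ η := div_nonneg hL hτ0.le
    have hpt : ∀ i ∈ T, η * v i ^ 2 ≤ Real.log (1 + v i ^ 2) := by
      intro i hi
      have h1 : v i ^ 2 ≤ τ := (sq_le_sq.mpr (hTle i hi)).trans hs.le
      have h4 := SEL2_log (v i ^ 2) τ (sq_nonneg _) h1 hτ0
      have h5 : v i ^ 2 / τ * Real.log (1 + τ) = η * v i ^ 2 := by
        rw [hη]; field_simp
      rw [h5] at h4
      exact h4
    have hsumT : K.card * Real.log (1 + τ) ≤ ∑ i ∈ T, Real.log (1 + v i ^ 2) := by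
      have h2 : ∑ i ∈ T, η * v i ^ 2 ≤ ∑ i ∈ T, Real.log (1 + v i ^ 2) :=
        Finset.sum_le_sum hpt
      have h3 : (K.card : ℝ) * Real.log (1 + τ) = η * (64 * n) := by
        rw [hη, hτ]
        field_simp
      rw [h3]
      rw [← Finset.mul_sum] at h2
      refine le_trans ?_ h2
      exact mul_le_mul_of_nonneg_left hT.le hη0
    have h1 : Real.log ((1 + τ) ^ K.card) ≤ Real.log (∏ i ∈ T, (1 + v i ^ 2)) := by
      rw [Real.log_pow, Real.log_prod (fun i _ => by have := hge1 i; positivity)]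
      exact hsumT
    exact (Real.log_le_log_iff (by positivity) (Finset.prod_pos fun i _ => by
      have := hge1 i; linarith)).1 h1

/-- the summand -/
noncomputable def num2_g (n k : ℕ) : ℝ :=
  if k = 0 then 0 else (5 : ℝ) ^ k / (1 + 64 * (n : ℝ) / k) ^ k

theorem num2_term (n k : ℕ) (hk : 0 < k) (hkn : k ≤ n) :
    ((n.choose k : ℕ) : ℝ) * num2_g n k ≤ (15 / 64 : ℝ) ^ k := by
  have hk' : (0 : ℝ) < (k : ℝ) := by exact_mod_cast hk
  have hn' : (0 : ℝ) < (n : ℝ) := by exact_mod_cast (lt_of_lt_of_le hk hkn)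
  unfold num2_g
  rw [if_neg hk.ne', ← div_pow]
  have h1 := num_choose n k hk
  have hpos : (0 : ℝ) < 1 + 64 * (n : ℝ) / k := by positivity
  have h2 : (0 : ℝ) ≤ (5 / (1 + 64 * (n : ℝ) / k)) ^ k := by positivity
  refine (mul_le_mul_of_nonneg_right h1 h2).trans ?_
  rw [← mul_pow]
  refine pow_le_pow_left₀ (by positivity) ?_ k
  rw [mul_div_assoc', div_le_iff₀ hpos]
  obtain ⟨t, ht⟩ : ∃ t : ℝ, t = (n : ℝ) / k := ⟨_, rfl⟩
  have ht0 : 0 < t := by rw [ht]; positivity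
  have e1 : 3 * (n : ℝ) / k = 3 * t := by rw [ht]; ring
  have e2 : 64 * (n : ℝ) / k = 64 * t := by rw [ht]; ring
  rw [e1, e2]
  nlinarith

theorem NUM2 (n : ℕ) (_hn : 0 < n) :
    ∑ K ∈ (univ : Finset (Finset (Fin n))).filter (fun K => K.Nonempty),
      (5 : ℝ) ^ K.card / (1 + 64 * (n : ℝ) / K.card) ^ K.card ≤ 1 / 2 := by
  have h1 : ∑ K ∈ (univ : Finset (Finset (Fin n))).filter (fun K => K.Nonempty),
      (5 : ℝ) ^ K.card / (1 + 64 * (n : ℝ) / K.card) ^ K.card =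
      ∑ K ∈ (univ : Finset (Fin n)).powerset, num2_g n K.card := by
    rw [sum_filter, powerset_univ]
    refine sum_congr rfl (fun K _ => ?_)
    unfold num2_g
    by_cases hK : K.Nonempty
    · rw [if_pos hK, if_neg (Finset.card_pos.2 hK).ne']
    · rw [if_neg hK, if_pos]
      rw [Finset.not_nonempty_iff_eq_empty.1 hK]
      exact card_empty
  rw [h1, sum_powerset_apply_card, card_univ, Fintype.card_fin]
  have h2 : ∑ m ∈ range (n + 1), n.choose m • num2_g n m ≤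
      ∑ k ∈ range (n + 1), (if k = 0 then (0 : ℝ) else (15 / 64 : ℝ) ^ k) := by
    refine sum_le_sum (fun k hk => ?_)
    by_cases h0 : k = 0
    · rw [if_pos h0]
      unfold num2_g
      rw [if_pos h0, smul_zero]
    · rw [if_neg h0, nsmul_eq_mul]
      exact num2_term n k (Nat.pos_of_ne_zero h0) (Nat.lt_succ_iff.1 (mem_range.1 hk))
  refine h2.trans ?_
  rw [num_geom]
  have h3 : (0 : ℝ) ≤ (15 / 64 : ℝ) ^ n := by positivity
  linarith

/-- Euclidean form of the lattice sum. -/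
theorem LS2_of (hsum : SUM1) : ∀ (n : ℕ) (B : Matrix (Fin n) (Fin n) ℝ), 0 < n →
  (∀ y : Fin n → ℤ, y ≠ 0 → 260 * (n : ℝ) ≤ ∑ j, (B *ᵥ (fun i => (y i : ℝ))) j ^ 2) →
  ∀ S : Finset (Fin n → ℤ), (0 : Fin n → ℤ) ∉ S →
    ∑ y ∈ S, ∏ j, (1 / (1 + (B *ᵥ (fun i => (y i : ℝ))) j ^ 2) ^ 2) ≤ 1 / 2 := by
  classical
  intro n B hn hB S h0
  let v : (Fin n → ℤ) → Fin n → ℝ := fun y => B *ᵥ (fun i => (y i : ℝ))
  have hv : ∀ y, v y = B *ᵥ (fun i => (y i : ℝ)) := fun y => rfl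
  have hnR : (0:ℝ) < n := by exact_mod_cast hn
  have hvsub : ∀ y y' : Fin n → ℤ, ∀ j, v (y - y') j = v y j - v y' j := by
    intro y y' j
    have h1 : (fun i => ((y - y') i : ℝ)) = (fun i => (y i : ℝ)) - (fun i => (y' i : ℝ)) := by
      funext i
      simp
    rw [hv, h1, Matrix.mulVec_sub]
    rfl
  -- selection
  have hK : ∀ y : Fin n → ℤ, ∃ K : Finset (Fin n), y ≠ 0 → (K.Nonempty ∧
      ∑ j ∈ Kᶜ, v y j ^ 2 ≤ 64 * n ∧
      (1 + 64 * (n : ℝ) / K.card) ^ K.card ≤ ∏ j, (1 + v y j ^ 2)) := by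
    intro y
    by_cases hy : y = 0
    · exact ⟨∅, fun h => absurd hy h⟩
    · obtain ⟨K, h⟩ := SEL2 n (v y) hn (hB y hy)
      exact ⟨K, fun _ => h⟩
  choose K hKp using hK
  have hne : ∀ y ∈ S, y ≠ 0 := fun y hy h => h0 (h ▸ hy)
  have hterm : ∀ y ∈ S, ∏ j, (1 / (1 + v y j ^ 2) ^ 2) ≤
      1 / (1 + 64 * (n : ℝ) / (K y).card) ^ (K y).card * ∏ j ∈ K y, (1 / (1 + v y j ^ 2)) := by
    intro y hy
    obtain ⟨_, _, h3⟩ := hKp y (hne y hy)
    have e1 : ∏ j, (1 / (1 + v y j ^ 2) ^ 2)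
        = (∏ j, (1 / (1 + v y j ^ 2))) * ∏ j, (1 / (1 + v y j ^ 2)) := by
      rw [← Finset.prod_mul_distrib]
      refine Finset.prod_congr rfl fun j _ => ?_
      rw [pow_two, one_div_mul_one_div]
    rw [e1]
    have hpos : ∀ j, 0 < 1 + v y j ^ 2 := fun j => by positivity
    refine mul_le_mul ?_ ?_ (Finset.prod_nonneg fun j _ => (one_div_pos.mpr (hpos j)).le)
      (by positivity)
    · have e2 : ∏ j, (1 / (1 + v y j ^ 2)) = 1 / ∏ j, (1 + v y j ^ 2) := by
        rw [Finset.prod_div_distrib, Finset.prod_const_one]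
      rw [e2]
      exact one_div_le_one_div_of_le (by positivity) h3
    · rw [← Finset.prod_sdiff (Finset.subset_univ (K y))]
      refine mul_le_of_le_one_left (Finset.prod_nonneg fun j _ => (one_div_pos.mpr (hpos j)).le) ?_
      refine Finset.prod_le_one (fun j _ => (one_div_pos.mpr (hpos j)).le) fun j _ => ?_
      rw [div_le_one (hpos j)]
      nlinarith [sq_nonneg (v y j)]
  -- points with the same large coordinates have different integral parts
  have hgroup : ∀ L : Finset (Fin n), ∑ y ∈ S.filter (fun y => K y = L),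
      ∏ j ∈ L, (1 / (1 + v y j ^ 2)) ≤ 5 ^ L.card := by
    intro L
    have h1 := hsum (Fin n → ℤ) {j // j ∈ L} (S.filter (fun y => K y = L))
      (fun y j => v y j.1) (by
        intro y hy y' hy' hfl
        rw [Finset.mem_filter] at hy hy'
        by_contra hyy
        have hd : y - y' ≠ 0 := sub_ne_zero.mpr hyy
        have hb := hB (y - y') hd
        rw [← hv] at hb
        obtain ⟨_, h2, _⟩ := hKp y (hne y hy.1)
        obtain ⟨_, h2', _⟩ := hKp y' (hne y' hy'.1)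
        rw [hy.2] at h2
        rw [hy'.2] at h2'
        have hin : ∑ j ∈ L, v (y - y') j ^ 2 ≤ n := by
          have : ∑ j ∈ L, v (y - y') j ^ 2 ≤ ∑ j ∈ L, (1:ℝ) := by
            refine Finset.sum_le_sum fun j hj => ?_
            rw [hvsub]
            have h9 := (Int.abs_sub_lt_one_of_floor_eq_floor (hfl ⟨j, hj⟩)).le
            exact (sq_le_one_iff_abs_le_one _).mpr h9
          refine this.trans ?_
          rw [Finset.sum_const, nsmul_eq_mul, mul_one]
          have := Finset.card_le_univ L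
          rw [Fintype.card_fin] at this
          exact_mod_cast this
        have hout : ∑ j ∈ Lᶜ, v (y - y') j ^ 2 ≤ 256 * n := by
          have : ∑ j ∈ Lᶜ, v (y - y') j ^ 2 ≤ ∑ j ∈ Lᶜ, (2 * v y j ^ 2 + 2 * v y' j ^ 2) := by
            refine Finset.sum_le_sum fun j _ => ?_
            rw [hvsub]
            nlinarith [sq_nonneg (v y j + v y' j)]
          rw [Finset.sum_add_distrib, ← Finset.mul_sum, ← Finset.mul_sum] at this
          linarith
        have hall := Finset.sum_add_sum_compl L (fun j => v (y - y') j ^ 2)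
        linarith)
    rw [Fintype.card_coe] at h1
    refine le_trans (le_of_eq ?_) h1
    refine Finset.sum_congr rfl fun y _ => ?_
    exact (Finset.prod_coe_sort L (fun j => 1 / (1 + v y j ^ 2))).symm
  -- summation over the sets of large coordinates
  have hfib : ∑ y ∈ S, ∏ j, (1 / (1 + v y j ^ 2) ^ 2) =
      ∑ L ∈ (univ : Finset (Finset (Fin n))).filter (fun L => L.Nonempty),
        ∑ y ∈ S.filter (fun y => K y = L), ∏ j, (1 / (1 + v y j ^ 2) ^ 2) := by
    rw [Finset.sum_fiberwise_of_maps_to]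
    intro y hy
    rw [Finset.mem_filter]
    exact ⟨Finset.mem_univ _, (hKp y (hne y hy)).1⟩
  show ∑ y ∈ S, ∏ j, (1 / (1 + v y j ^ 2) ^ 2) ≤ 1 / 2
  rw [hfib]
  refine le_trans (Finset.sum_le_sum fun L _ => ?_) (NUM2 n hn)
  calc ∑ y ∈ S.filter (fun y => K y = L), ∏ j, (1 / (1 + v y j ^ 2) ^ 2)
      ≤ ∑ y ∈ S.filter (fun y => K y = L),
        1 / (1 + 64 * (n : ℝ) / L.card) ^ L.card * ∏ j ∈ L, (1 / (1 + v y j ^ 2)) := by
        refine Finset.sum_le_sum fun y hy => ?_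
        rw [Finset.mem_filter] at hy
        have := hterm y hy.1
        rw [hy.2] at this
        exact this
    _ = 1 / (1 + 64 * (n : ℝ) / L.card) ^ L.card *
        ∑ y ∈ S.filter (fun y => K y = L), ∏ j ∈ L, (1 / (1 + v y j ^ 2)) := by
        rw [Finset.mul_sum]
    _ ≤ 1 / (1 + 64 * (n : ℝ) / L.card) ^ L.card * 5 ^ L.card :=
        mul_le_mul_of_nonneg_left (hgroup L) (by positivity)
    _ = (5 : ℝ) ^ L.card / (1 + 64 * (n : ℝ) / L.card) ^ L.card := by
        rw [one_div_mul_eq_div]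

end Pool.Agent.H239R2.Flat
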