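import Pool.Agent.H239R2.Flat.FIN
import Pool.Agent.H239R2.Flat.Two

set_option autoImplicit false

namespace Pool.Agent.H239R2.Flat

open Finset MeasureTheory Matrix

/-- If the parallelotope `x₀ + Σ [-1,1] b_j` is lattice-free then some nonzero integer `y` has
`Σ_j ⟨b_j, y⟩ ^ 2 ≤ 324 n`. -/
theorem TFIN_of (hKC : KC) (hS : SINC) (hP : POIS) (hC : CHV) (hSu : SUM1) :
    ∀ (n : ℕ) (B : Matrix (Fin n) (Fin n) ℝ), 0 < n → B.det ≠ 0 → ∀ x₀ : Fin n → ℝ,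
      (∀ z : Fin n → ℤ, ∃ j, 1 ≤ |((fun i => x₀ i - z i) ᵥ* B⁻¹) j|) →
      ∃ y : Fin n → ℤ, y ≠ 0 ∧ ∑ j, (B *ᵥ (fun i => (y i : ℝ))) j ^ 2 ≤ 324 * n := by
  classical
  intro n B hn hB x₀ hfree
  by_contra hcon
  push Not at hcon
  have hnR : (0:ℝ) < n := by exact_mod_cast hn
  set F : (Fin n → ℝ) → ℂ := fun x => ((∏ j, ker ((x ᵥ* B⁻¹) j) : ℝ) : ℂ) with hF
  have hFc : Continuous F := FIN_cont hKC B
  have hFs : HasCompactSupport F := FIN_supp hKC B hB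
  set D : ℝ := |B.det| with hD
  have hD0 : 0 < D := abs_pos.mpr hB
  let P : (Fin n → ℤ) → ℝ := fun y => ∏ j, kh ((B *ᵥ (fun i => (y i : ℝ))) j)
  have hP0 : ∀ y, 0 ≤ P y := fun y => Finset.prod_nonneg fun j _ => (hS.2 _).1
  have hcoef : ∀ y : Fin n → ℤ, ∫ x : Fin n → ℝ, F x * ch (-(∑ i, (y i : ℝ) * x i))
      = ((D * P y : ℝ) : ℂ) := fun y => hC n B hB (fun i => (y i : ℝ))
  -- the lattice sum
  have hls : ∀ S : Finset (Fin n → ℤ), (0 : Fin n → ℤ) ∉ S →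
      ∑ y ∈ S, P y ≤ (1 / 2) ^ n * (1 / 2) := by
    intro S h0
    have hmul : ∀ y : Fin n → ℤ, ∀ j, (((9 / 10 : ℝ) • B) *ᵥ (fun i => (y i : ℝ))) j
        = 9 / 10 * (B *ᵥ (fun i => (y i : ℝ))) j := by
      intro y j
      rw [Matrix.smul_mulVec]
      rfl
    have h1 := LS2_of hSu n ((9 / 10 : ℝ) • B) hn (by
      intro y hy
      have h2 := hcon y hy
      have h3 : ∑ j, (((9 / 10 : ℝ) • B) *ᵥ (fun i => (y i : ℝ))) j ^ 2
          = 81 / 100 * ∑ j, (B *ᵥ (fun i => (y i : ℝ))) j ^ 2 := by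
        rw [Finset.mul_sum]
        refine Finset.sum_congr rfl fun j _ => ?_
        rw [hmul]
        ring
      rw [h3]
      linarith) S h0
    refine le_trans ?_ (mul_le_mul_of_nonneg_left h1 (by positivity : (0:ℝ) ≤ (1 / 2) ^ n))
    rw [Finset.mul_sum]
    refine Finset.sum_le_sum fun y _ => ?_
    have h4 : ∀ j, kh ((B *ᵥ (fun i => (y i : ℝ))) j) ≤ (1 / 2) *
        (1 / (1 + (((9 / 10 : ℝ) • B) *ᵥ (fun i => (y i : ℝ))) j ^ 2) ^ 2) := by
      intro j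
      rw [hmul]
      exact (hS.2 _).2
    refine (Finset.prod_le_prod (fun j _ => (hS.2 _).1) (fun j _ => h4 j)).trans (le_of_eq ?_)
    rw [Finset.prod_mul_distrib, Finset.prod_const, Finset.card_univ, Fintype.card_fin]
  have hPzero : P 0 = (1 / 2) ^ n := by
    show ∏ j, kh ((B *ᵥ (fun i => (((0 : Fin n → ℤ) i : ℤ) : ℝ))) j) = _
    have h1 : (fun i : Fin n => (((0 : Fin n → ℤ) i : ℤ) : ℝ)) = 0 := by
      funext i; simp
    rw [h1, Matrix.mulVec_zero]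
    simp only [Pi.zero_apply, hS.1]
    rw [Finset.prod_const, Finset.card_univ, Fintype.card_fin]
  have hnorm : ∀ y : Fin n → ℤ, ‖∫ x : Fin n → ℝ, F x * ch (-(∑ i, (y i : ℝ) * x i))‖
      = D * P y := by
    intro y
    rw [hcoef, Complex.norm_real, Real.norm_of_nonneg (mul_nonneg hD0.le (hP0 y))]
  have hsummable : Summable (fun y : Fin n → ℤ =>
      ‖∫ x : Fin n → ℝ, F x * ch (-(∑ i, (y i : ℝ) * x i))‖) := by
    refine summable_of_sum_le (c := D * ((1 / 2) ^ n + (1 / 2) ^ n * (1 / 2)))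
      (fun y => norm_nonneg _) fun S => ?_
    have h1 : ∑ y ∈ S, ‖∫ x : Fin n → ℝ, F x * ch (-(∑ i, (y i : ℝ) * x i))‖
        = D * ∑ y ∈ S, P y := by
      rw [Finset.mul_sum]
      exact Finset.sum_congr rfl fun y _ => hnorm y
    rw [h1]
    refine mul_le_mul_of_nonneg_left ?_ hD0.le
    have h2 : ∑ y ∈ S, P y ≤ ∑ y ∈ insert 0 (S.erase 0), P y :=
      Finset.sum_le_sum_of_subset_of_nonneg (by
        intro y hy
        rw [Finset.mem_insert, Finset.mem_erase]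
        by_cases h : y = 0
        · exact Or.inl h
        · exact Or.inr ⟨h, hy⟩) (fun y _ _ => hP0 y)
    rw [Finset.sum_insert (Finset.notMem_erase _ _), hPzero] at h2
    have h3 := hls (S.erase 0) (Finset.notMem_erase _ _)
    linarith
  have hsum := hP n F hFc hFs hsummable x₀
  have hzero : ∑' z : Fin n → ℤ, F (fun i => x₀ i - z i) = 0 := by
    have : ∀ z : Fin n → ℤ, F (fun i => x₀ i - z i) = 0 := by
      intro z
      obtain ⟨j, hj⟩ := hfree z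
      show ((∏ j, ker (((fun i => x₀ i - z i) ᵥ* B⁻¹) j) : ℝ) : ℂ) = 0
      rw [FIN_ker_prod_zero hKC _ j hj, Complex.ofReal_zero]
    simp only [this]
    exact tsum_zero
  rw [hzero] at hsum
  have hlim := hsum.norm
  rw [norm_zero] at hlim
  have hge : ∀ᶠ S : Finset (Fin n → ℤ) in Filter.atTop, D * (1 / 2) ^ n * (1 / 2) ≤
      ‖∑ y ∈ S, (∫ u : Fin n → ℝ, F u * ch (-(∑ i, (y i : ℝ) * u i)))
        * ch (∑ i, (y i : ℝ) * x₀ i)‖ := by
    filter_upwards [Filter.eventually_ge_atTop ({0} : Finset (Fin n → ℤ))] with S hS0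
    have h0S : (0 : Fin n → ℤ) ∈ S := hS0 (Finset.mem_singleton_self _)
    rw [← Finset.add_sum_erase S _ h0S]
    have e0 : (∫ u : Fin n → ℝ, F u * ch (-(∑ i, (((0 : Fin n → ℤ) i : ℤ) : ℝ) * u i)))
        * ch (∑ i, (((0 : Fin n → ℤ) i : ℤ) : ℝ) * x₀ i) = ((D * (1 / 2) ^ n : ℝ) : ℂ) := by
      rw [hcoef 0, hPzero]
      have : ∑ i, (((0 : Fin n → ℤ) i : ℤ) : ℝ) * x₀ i = 0 := by simp
      rw [this, FIN_ch_zero, mul_one]
    rw [e0]
    have h1 : ‖∑ y ∈ S.erase 0, (∫ u : Fin n → ℝ, F u * ch (-(∑ i, (y i : ℝ) * u i)))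
        * ch (∑ i, (y i : ℝ) * x₀ i)‖ ≤ D * ((1 / 2) ^ n * (1 / 2)) := by
      refine (norm_sum_le _ _).trans ?_
      refine le_trans (le_of_eq ?_) (mul_le_mul_of_nonneg_left
        (hls (S.erase 0) (Finset.notMem_erase _ _)) hD0.le)
      rw [Finset.mul_sum]
      refine Finset.sum_congr rfl fun y _ => ?_
      rw [norm_mul, FIN_ch_norm, mul_one, hnorm]
    have h2 := norm_sub_le_norm_add ((D * (1 / 2) ^ n : ℝ) : ℂ)
      (∑ y ∈ S.erase 0, (∫ u : Fin n → ℝ, F u * ch (-(∑ i, (y i : ℝ) * u i)))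
        * ch (∑ i, (y i : ℝ) * x₀ i))
    have h3 : ‖((D * (1 / 2) ^ n : ℝ) : ℂ)‖ = D * (1 / 2) ^ n := by
      rw [Complex.norm_real, Real.norm_of_nonneg (by positivity)]
    rw [h3] at h2
    linarith
  have hfin := ge_of_tendsto hlim hge
  have : 0 < D * (1 / 2) ^ n * (1 / 2) := by positivity
  linarith

end Pool.Agent.H239R2.Flat
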